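import Pool.Agent.Q85.RC.Tann

/-! The weight, the class of `f`, the transform of `f`, and `g ≠ 0`. -/

set_option autoImplicit false

open MeasureTheory Set Filter Topology

noncomputable section

namespace RC

/-- the weight -/
def phi (S : ℕ → St) (t : ℝ) : ℝ := Real.exp (qI S t)

theorem integrable_tsum_nonneg {F : ℕ → ℝ → ℝ} {μ : Measure ℝ} (hF : ∀ j, Integrable (F j) μ)
    (hn : ∀ j t, 0 ≤ F j t) (hs : Summable fun j => ∫ t, F j t ∂μ)
    (hp : ∀ t, Summable fun j => F j t) : Integrable (fun t => ∑' j, F j t) μ := by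
  refine ⟨?_, ?_⟩
  · apply aestronglyMeasurable_of_tendsto_ae atTop
      (f := fun (n : ℕ) t => ∑ j ∈ Finset.range n, F j t)
    · intro n
      exact Finset.aestronglyMeasurable_fun_sum _ fun j _ => (hF j).aestronglyMeasurable
    · exact ae_of_all _ fun t => (hp t).hasSum.tendsto_sum_nat
  · rw [hasFiniteIntegral_iff_ofReal (ae_of_all _ fun t => tsum_nonneg fun j => hn j t)]
    have e : ∀ t, ENNReal.ofReal (∑' j, F j t) = ∑' j, ENNReal.ofReal (F j t) := fun t =>
      ENNReal.ofReal_tsum_of_nonneg (fun j => hn j t) (hp t)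
    simp_rw [e]
    rw [lintegral_tsum fun j => (hF j).aestronglyMeasurable.aemeasurable.ennreal_ofReal]
    have e2 : ∀ j, ∫⁻ t, ENNReal.ofReal (F j t) ∂μ = ENNReal.ofReal (∫ t, F j t ∂μ) := fun j =>
      (ofReal_integral_eq_lintegral_ofReal (hF j) (ae_of_all _ fun t => hn j t)).symm
    simp_rw [e2]
    rw [← ENNReal.ofReal_tsum_of_nonneg (fun j => integral_nonneg fun t => hn j t) hs]
    exact ENNReal.ofReal_lt_top

section
variable {S : ℕ → St} (h0 : S 0 = S0) (hV : ∀ j, Valid j (S j))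
  (hR : ∀ j, Rel j (S j) (S (j + 1)))

include hV in
theorem phi_mono : Monotone (phi S) := Real.exp_monotone.comp (qI_mono hV)

include hV hR in
theorem phi_sub (t τ : ℝ) : phi S (t + τ) ≤ phi S t * phi S τ := by
  unfold phi
  rw [← Real.exp_add]
  exact Real.exp_le_exp.mpr (qI_sub hV hR t τ)

include hV hR in
theorem phi_top : Tendsto (fun t => Real.log (phi S t) / t) atTop (𝓝 0) := by
  unfold phi
  simp_rw [Real.log_exp]
  exact qI_lim hV hR

include hV in
theorem phi_bot : Tendsto (fun t => Real.log (phi S t) / t) atBot (𝓝 0) := by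
  unfold phi
  simp_rw [Real.log_exp]
  apply Tendsto.congr' _ tendsto_const_nhds
  filter_upwards [eventually_le_atBot 0] with t ht
  rw [qI_zero hV t ht, zero_div]

include h0 hR in
theorem ff_measurable : Measurable (ff S) := by
  apply measurable_of_tendsto_metrizable
    (f := fun (n : ℕ) t => ∑ j ∈ Finset.range n, fj S j t)
  · intro n
    exact Finset.measurable_fun_sum _ fun j _ => eb_measurable _ _ _
  · rw [tendsto_pi_nhds]
    exact fun t => (fj_summable h0 hR t).hasSum.tendsto_sum_nat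

include h0 hR in
theorem ff_zero (t : ℝ) (ht : t ≤ 0) : ff S t = 0 := by
  unfold ff
  have : ∀ j, fj S j t = 0 := fun j => eb_of_le (ht.trans (T_nonneg h0 hR j))
  simp [this]

include h0 hV hR in
theorem fj_phi (j : ℕ) (t : ℝ) : fj S j t * phi S t ≤ Bj S j t := by
  have h2 := weighted h0 hV hR j j le_rfl t 0 le_rfl
  have h4 := qI_le hV t j
  have h3 := fj_nonneg S j t
  simp only [add_zero, zero_div, Real.exp_zero, one_mul] at h2
  refine le_trans ?_ h2
  unfold phi
  gcongr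

include h0 hV hR in
theorem ff_weighted : IntegrableOn (fun t => ‖(ff S t : ℂ)‖ * phi S t) (Ioi 0) := by
  have e : (fun t => ‖(ff S t : ℂ)‖ * phi S t) = fun t => ∑' j, fj S j t * phi S t := by
    funext t
    have hf : 0 ≤ ff S t := tsum_nonneg fun j => fj_nonneg S j t
    rw [Complex.norm_real, Real.norm_of_nonneg hf, tsum_mul_right]
    rfl
  rw [e]
  have hint : ∀ j, Integrable (fun t => fj S j t * phi S t) (volume.restrict (Ioi 0)) := by
    intro j
    refine Integrable.mono' (Bj_integrable h0 hR j) ?_ (ae_of_all _ fun t => ?_)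
    · exact ((eb_measurable _ _ _).mul (phi_mono hV).measurable).aestronglyMeasurable
    · have hn : 0 ≤ fj S j t * phi S t := mul_nonneg (fj_nonneg S j t) (Real.exp_pos _).le
      rw [Real.norm_of_nonneg hn]
      exact fj_phi h0 hV hR j t
  apply integrable_tsum_nonneg hint
  · exact fun j t => mul_nonneg (fj_nonneg S j t) (Real.exp_pos _).le
  · refine Summable.of_nonneg_of_le (fun j => integral_nonneg fun t =>
      mul_nonneg (fj_nonneg S j t) (Real.exp_pos _).le) (fun j => ?_)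
      ((summable_geometric_of_lt_one (by norm_num : (0 : ℝ) ≤ 1 / 2) (by norm_num)).mul_left 2)
    exact (integral_mono (hint j) (Bj_integrable h0 hR j) fun t =>
      fj_phi h0 hV hR j t).trans (Bj_integral h0 hR j)
  · exact fun t => (fj_summable h0 hR t).mul_right _

/-! ### the transform -/

include h0 hR in
theorem mQ (j : ℕ) : mr j * Real.exp (-(S j).Q) ≤ (1 / 4) ^ j := by
  cases j with
  | zero => rw [h0]; simp [S0, mr]
  | succ j => rw [mul_comm]; exact (hR j).Qm

include h0 hR in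
theorem fj_integral (j : ℕ) : ∫ t in Ioi 0, fj S j t ≤ (1 / 4) ^ j := by
  unfold fj
  rw [eb_integral _ (MMr_pos j) (T_nonneg h0 hR j)]
  have h1 := mQ h0 hR j
  have h2 : 0 ≤ mr j * Real.exp (-(S j).Q) := mul_nonneg (mr_pos j).le (Real.exp_pos _).le
  exact (div_le_self h2 (MMr_one_le j)).trans h1

include h0 hR in
theorem ff_hat (z : ℂ) (hz : z.im ≤ 0) :
    ∫ t in Ioi (0 : ℝ), (ff S t : ℂ) * ex z t = ∑' j, hj S j z := by
  have hb : ∀ j : ℕ, ∀ᵐ t ∂(volume.restrict (Ioi (0 : ℝ))),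
      ‖(fj S j t : ℂ) * ex z t‖ ≤ fj S j t := by
    intro j
    filter_upwards [ae_restrict_mem measurableSet_Ioi] with t ht
    have ht' : (0 : ℝ) < t := ht
    rw [norm_mul, norm_ex, Complex.norm_real, Real.norm_of_nonneg (fj_nonneg S j t)]
    have h1 : Real.exp (t * z.im) ≤ 1 :=
      Real.exp_le_one_iff.mpr (mul_nonpos_of_nonneg_of_nonpos ht'.le hz)
    have h2 := fj_nonneg S j t
    calc fj S j t * Real.exp (t * z.im) ≤ fj S j t * 1 := by gcongr
      _ = fj S j t := mul_one _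
  have hint : ∀ j, Integrable (fun t => (fj S j t : ℂ) * ex z t)
      (volume.restrict (Ioi (0 : ℝ))) := by
    intro j
    refine Integrable.mono' (fj_integrable h0 hR j) ?_ (hb j)
    exact ((fj_meas S j).mul (continuous_ex_right z).measurable).aestronglyMeasurable
  have hsum : Summable fun j => ∫ t in Ioi (0 : ℝ), ‖(fj S j t : ℂ) * ex z t‖ := by
    refine Summable.of_nonneg_of_le (fun j => integral_nonneg fun t => norm_nonneg _)
      (fun j => ?_) (summable_geometric_of_lt_one (by norm_num : (0 : ℝ) ≤ 1 / 4) (by norm_num))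
    exact (integral_mono_ae (hint j).norm (fj_integrable h0 hR j) (hb j)).trans
      (fj_integral h0 hR j)
  have h := integral_tsum_of_summable_integral_norm hint hsum
  have e1 : ∀ j, ∫ t in Ioi (0 : ℝ), (fj S j t : ℂ) * ex z t = hj S j z := fun j =>
    fj_hat h0 hR j z (by linarith)
  simp_rw [e1] at h
  rw [h]
  congr 1
  funext t
  rw [tsum_mul_right]
  unfold ff
  rw [Complex.ofReal_tsum]

theorem den_mono (j : ℕ) (z : ℂ) (hz : z.im ≤ 0) :
    ‖1 + Complex.I * z‖ ≤ ‖(MMr j : ℂ) + Complex.I * z‖ := by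
  have hM := MMr_one_le j
  rw [Complex.norm_def, Complex.norm_def]
  apply Real.sqrt_le_sqrt
  rw [Complex.normSq_apply, Complex.normSq_apply]
  simp
  nlinarith

theorem den_pos (z : ℂ) (hz : z.im ≤ 0) : 0 < ‖1 + Complex.I * z‖ := by
  rw [norm_pos_iff]
  intro h
  have h1 := congrArg Complex.re h
  simp at h1
  linarith

include h0 hR in
theorem hj_bound (j : ℕ) (z : ℂ) (hz : z.im ≤ 0) :
    ‖hj S j z‖ ≤ (1 / 4) ^ j / ‖1 + Complex.I * z‖ := by
  unfold hj kap
  rw [norm_mul, norm_mul, norm_div, norm_ex, Complex.norm_exp, Complex.norm_real,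
    Real.norm_of_nonneg (mr_pos j).le]
  simp only [Complex.neg_re, Complex.ofReal_re]
  have h1 := mQ h0 hR j
  have h2 : Real.exp ((S j).T * z.im) ≤ 1 :=
    Real.exp_le_one_iff.mpr (mul_nonpos_of_nonneg_of_nonpos (T_nonneg h0 hR j) hz)
  have h3 := den_mono j z hz
  have h4 := den_pos z hz
  have h5 := mr_pos j
  calc Real.exp (-(S j).Q) * Real.exp ((S j).T * z.im) * (mr j / ‖(MMr j : ℂ) + Complex.I * z‖)
      ≤ Real.exp (-(S j).Q) * 1 * (mr j / ‖1 + Complex.I * z‖) := by gcongr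
    _ = (mr j * Real.exp (-(S j).Q)) / ‖1 + Complex.I * z‖ := by ring
    _ ≤ _ := by gcongr

include h0 in
theorem hj_zero (z : ℂ) : hj S 0 z = 1 / (1 + Complex.I * z) := by
  unfold hj kap
  rw [h0]
  simp [S0, ex, mr, MMr]

include h0 hR in
theorem hat_sub (z : ℂ) (hz : z.im ≤ 0) :
    ‖∑' j, hj S j z - 1 / (1 + Complex.I * z)‖ ≤ (1 / 3) / ‖1 + Complex.I * z‖ := by
  have h4 := den_pos z hz
  have hs : Summable fun j => hj S j z := by
    apply Summable.of_norm_bounded
      ((summable_geometric_of_lt_one (by norm_num : (0 : ℝ) ≤ 1 / 4)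
        (by norm_num)).div_const ‖1 + Complex.I * z‖)
    exact fun j => hj_bound h0 hR j z hz
  rw [hs.tsum_eq_zero_add, hj_zero h0, add_sub_cancel_left]
  have hg : HasSum (fun j : ℕ => (1 / 4 : ℝ) ^ (j + 1) / ‖1 + Complex.I * z‖)
      ((1 / 3) / ‖1 + Complex.I * z‖) := by
    have h := ((hasSum_geometric_of_lt_one (by norm_num : (0 : ℝ) ≤ 1 / 4)
      (by norm_num)).mul_left (1 / 4)).div_const ‖1 + Complex.I * z‖
    have e : (1 / 4 : ℝ) * (1 - 1 / 4)⁻¹ = 1 / 3 := by norm_num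
    rw [e] at h
    refine h.congr_fun ?_
    intro j
    rw [pow_succ]; ring
  exact tsum_of_norm_bounded hg fun j => hj_bound h0 hR (j + 1) z hz

include h0 hR in
theorem hat_bounds (z : ℂ) (hz : z.im ≤ 0) :
    (2 / 3) / ‖1 + Complex.I * z‖ ≤ ‖∑' j, hj S j z‖ ∧
      ‖∑' j, hj S j z‖ ≤ (4 / 3) / ‖1 + Complex.I * z‖ := by
  have h := hat_sub h0 hR z hz
  have e : ‖(1 : ℂ) / (1 + Complex.I * z)‖ = 1 / ‖1 + Complex.I * z‖ := by
    rw [norm_div, norm_one]
  have h1 := norm_sub_norm_le (1 / (1 + Complex.I * z)) (∑' j, hj S j z)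
  have h2 := norm_sub_norm_le (∑' j, hj S j z) (1 / (1 + Complex.I * z))
  rw [norm_sub_rev] at h1
  have e1 : (2 / 3 : ℝ) / ‖1 + Complex.I * z‖
      = 1 / ‖1 + Complex.I * z‖ - (1 / 3) / ‖1 + Complex.I * z‖ := by ring
  have e2 : (4 / 3 : ℝ) / ‖1 + Complex.I * z‖
      = 1 / ‖1 + Complex.I * z‖ + (1 / 3) / ‖1 + Complex.I * z‖ := by ring
  rw [e] at h1 h2
  constructor
  · rw [e1]; linarith
  · rw [e2]; linarith

/-! ### the limit along the imaginary axis -/

theorem log_div_tendsto (F : ℝ → ℝ)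
    (hF : ∀ y : ℝ, y ≤ 0 → (2 / 3) / (1 + |y|) ≤ F y ∧ F y ≤ (4 / 3) / (1 + |y|)) :
    Tendsto (fun y => Real.log (F y) / |y|) atBot (𝓝 0) := by
  have h1 : Tendsto (fun y : ℝ => 2 / Real.sqrt |y|) atBot (𝓝 0) :=
    (tendsto_const_nhds (x := (2 : ℝ))).div_atTop (Real.tendsto_sqrt_atTop.comp tendsto_abs_atBot_atTop)
  refine squeeze_zero_norm' ?_ h1
  filter_upwards [eventually_le_atBot (-1)] with y hy
  have hy1 : 1 ≤ |y| := by rw [abs_of_nonpos (by linarith)]; linarith
  obtain ⟨ha, hb⟩ := hF y (by linarith)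
  have hd : 0 < 1 + |y| := by linarith
  have hpos : 0 < F y := lt_of_lt_of_le (by positivity) ha
  have hla := Real.log_le_log (by positivity) ha
  have hlb := Real.log_le_log hpos hb
  rw [Real.log_div (by norm_num) hd.ne'] at hla hlb
  have h23 : -1 ≤ Real.log (2 / 3) := by
    have := Real.one_sub_inv_le_log_of_pos (show (0 : ℝ) < 2 / 3 by norm_num)
    norm_num at this
    linarith
  have h43 : Real.log (4 / 3) ≤ 1 := by
    have := Real.log_le_sub_one_of_pos (show (0 : ℝ) < 4 / 3 by norm_num)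
    linarith
  have hl0 : 0 ≤ Real.log (1 + |y|) := Real.log_nonneg (by linarith)
  have hs1 : 1 ≤ Real.sqrt |y| := Real.one_le_sqrt.mpr hy1
  have hs2 : Real.sqrt |y| * Real.sqrt |y| = |y| := Real.mul_self_sqrt (by linarith)
  have hlog : Real.log (1 + |y|) ≤ 2 * Real.sqrt |y| - 1 := by
    have h2 : Real.log (1 + |y|) ≤ Real.log (2 * |y|) := Real.log_le_log hd (by linarith)
    have h3 : Real.log (2 * |y|) = Real.log 2 + 2 * Real.log (Real.sqrt |y|) := by
      rw [Real.log_mul (by norm_num) (by linarith), Real.log_sqrt (by linarith)]; ring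
    have h4 := Real.log_le_sub_one_of_pos (show 0 < Real.sqrt |y| by linarith)
    have h5 := Real.log_two_lt_d9
    linarith
  have habs : |Real.log (F y)| ≤ 2 * Real.sqrt |y| := by
    rw [abs_le]; constructor <;> linarith
  rw [Real.norm_eq_abs, abs_div, abs_abs, div_le_div_iff₀ (by linarith) (by linarith)]
  calc |Real.log (F y)| * Real.sqrt |y| ≤ 2 * Real.sqrt |y| * Real.sqrt |y| := by gcongr
    _ = 2 * |y| := by rw [mul_assoc, hs2]

/-! ### the limit function does not vanish -/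

include h0 in
theorem gg0_zero : gg S 0 0 = 1 := by
  unfold gg gf
  rw [h0]
  have e : (fun s => S0.μ s * ex (pt s (yy 0)) 0) = mu0 := by
    funext s
    show mu0 s * ex (pt s (yy 0)) 0 = mu0 s
    unfold ex; simp
  rw [e, mu0_int]

include h0 hV in
theorem gI_ne : ¬ ∀ᵐ t ∂(volume.restrict (Ioi (0 : ℝ))), gI S hR t = 0 := by
  intro hae
  have hc : Continuous fun t => gg S 0 t := gf_continuous (S 0).μ (hV 0).μi (yy 0)
  have h1 : ∀ᶠ t in 𝓝 (0 : ℝ), 1 / 2 < ‖gg S 0 t‖ := by
    have h2 : Tendsto (fun t => ‖gg S 0 t‖) (𝓝 0) (𝓝 ‖gg S 0 0‖) := (hc.tendsto 0).norm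
    rw [gg0_zero h0, norm_one] at h2
    exact h2.eventually_const_lt (by norm_num)
  obtain ⟨η, hη, hball⟩ := Metric.eventually_nhds_iff.mp h1
  have hnz : ∀ t, 0 < t → t < min η 1 → gI S hR t ≠ 0 := by
    intro t ht ht2 hg
    have ht3 : t < η := ht2.trans_le (min_le_left _ _)
    have ht4 : t < 1 := ht2.trans_le (min_le_right _ _)
    have h3 := hball (show dist t 0 < η by rw [Real.dist_eq, sub_zero, abs_of_pos ht]; exact ht3)
    have h4 := gI_close hR t ht.le ht4.le
    rw [hg, zero_sub, norm_neg] at h4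
    have h5 : Real.exp (t / 2) ≤ 2 := by
      have h6 : Real.exp (t / 2) ≤ Real.exp (Real.log 2) := by
        apply Real.exp_le_exp.mpr
        have := Real.log_two_gt_d9
        linarith
      rwa [Real.exp_log (by norm_num)] at h6
    linarith
  rw [ae_restrict_iff' measurableSet_Ioi] at hae
  have hm : 0 < min η 1 := lt_min hη one_pos
  have hz : volume (Ioo (0 : ℝ) (min η 1)) = 0 := by
    apply measure_mono_null _ (ae_iff.mp hae)
    intro t ht
    simp only [mem_ofPred_eq]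
    intro h
    exact hnz t ht.1 ht.2 (h ht.1)
  rw [Real.volume_Ioo, sub_zero, ENNReal.ofReal_eq_zero] at hz
  linarith

include h0 hV in
theorem prod_integrable (τ : ℝ) (hτ : 0 ≤ τ) :
    IntegrableOn (fun t => (ff S t : ℂ) * gI S hR (t + τ)) (Ioi 0) := by
  refine Integrable.mono' ((ff_weighted h0 hV hR).const_mul (2 * phi S τ)) ?_ ?_
  · exact ((Complex.measurable_ofReal.comp (ff_measurable h0 hR)).mul
      ((gI_measurable hV hR).comp (measurable_id.add_const τ))).aestronglyMeasurable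
  · filter_upwards [ae_restrict_mem measurableSet_Ioi] with t ht
    have ht' : (0 : ℝ) < t := ht
    rw [norm_mul]
    have h1 := gI_bound hV hR (t + τ) (by linarith)
    have h2 : ‖gI S hR (t + τ)‖ ≤ 2 * (phi S t * phi S τ) :=
      h1.trans (mul_le_mul_of_nonneg_left (phi_sub hV hR t τ) (by norm_num))
    calc ‖(ff S t : ℂ)‖ * ‖gI S hR (t + τ)‖ ≤ ‖(ff S t : ℂ)‖ * (2 * (phi S t * phi S τ)) := by
          gcongr
      _ = 2 * phi S τ * (‖(ff S t : ℂ)‖ * phi S t) := by ring

include h0 hV in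
theorem real_version (L : ℂ →L[ℝ] ℝ) (hL : ∀ z, ‖L z‖ ≤ ‖z‖)
    (hne : ¬ ∀ᵐ t ∂(volume.restrict (Ioi (0 : ℝ))), L (gI S hR t) = 0) :
    ∃ G : ℝ → ℝ, Measurable G ∧ (∀ t, 0 ≤ t → |G t| ≤ 2 * phi S t) ∧
      (∀ τ, 0 ≤ τ → ∫ t in Ioi (0 : ℝ), (ff S t : ℂ) * (G (t + τ) : ℂ) = 0) ∧
      ¬ ∀ᵐ t ∂(volume.restrict (Ioi (0 : ℝ))), G t = 0 := by
  refine ⟨fun t => L (gI S hR t), L.continuous.measurable.comp (gI_measurable hV hR),
    fun t ht => (hL _).trans (gI_bound hV hR t ht), fun τ hτ => ?_, hne⟩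
  have h := L.integral_comp_comm (prod_integrable h0 hV hR τ hτ)
  rw [corr_zero h0 hV hR τ hτ, map_zero] at h
  have e : (fun t => (ff S t : ℂ) * (L (gI S hR (t + τ)) : ℂ))
      = fun t => ((L ((ff S t : ℂ) * gI S hR (t + τ)) : ℝ) : ℂ) := by
    funext t
    have e1 : (ff S t : ℂ) * gI S hR (t + τ) = (ff S t) • gI S hR (t + τ) :=
      (Complex.real_smul).symm
    rw [e1, map_smul, smul_eq_mul]
    push_cast
    ring
  rw [e]
  have h2 : ∫ t in Ioi (0 : ℝ), ((L ((ff S t : ℂ) * gI S hR (t + τ)) : ℝ) : ℂ)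
      = ((∫ t in Ioi (0 : ℝ), L ((ff S t : ℂ) * gI S hR (t + τ)) : ℝ) : ℂ) := integral_ofReal
  rw [h2, h, Complex.ofReal_zero]

include h0 hV hR in
theorem exists_real : ∃ G : ℝ → ℝ, Measurable G ∧ (∀ t, 0 ≤ t → |G t| ≤ 2 * phi S t) ∧
      (∀ τ, 0 ≤ τ → ∫ t in Ioi (0 : ℝ), (ff S t : ℂ) * (G (t + τ) : ℂ) = 0) ∧
      ¬ ∀ᵐ t ∂(volume.restrict (Ioi (0 : ℝ))), G t = 0 := by
  by_cases hre : ∀ᵐ t ∂(volume.restrict (Ioi (0 : ℝ))), Complex.reCLM (gI S hR t) = 0
  · by_cases him : ∀ᵐ t ∂(volume.restrict (Ioi (0 : ℝ))), Complex.imCLM (gI S hR t) = 0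
    · exfalso
      apply gI_ne h0 hV hR
      filter_upwards [hre, him] with t h1 h2
      exact Complex.ext h1 h2
    · exact real_version h0 hV hR Complex.imCLM (fun z => Complex.abs_im_le_norm z) him
  · exact real_version h0 hV hR Complex.reCLM (fun z => Complex.abs_re_le_norm z) hre

end

end RC
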