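import Pool.Agent.Q85.RC.State

/-! Exponential pieces: integrals, transforms, correlation with `gf`. -/

set_option autoImplicit false

open MeasureTheory Set Filter Topology

noncomputable section

namespace RC

/-- `c e^{-b(t-T)}` for `t > T`, zero otherwise -/
def eb (c b T t : ℝ) : ℝ := (Ioi T).indicator (fun t => c * Real.exp (-(b * (t - T)))) t

theorem eb_measurable (c b T : ℝ) : Measurable (eb c b T) := by
  unfold eb
  exact (by fun_prop : Measurable fun t : ℝ => c * Real.exp (-(b * (t - T)))).indicator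
    measurableSet_Ioi

theorem eb_of_lt {c b T t : ℝ} (h : T < t) : eb c b T t = c * Real.exp (-(b * (t - T))) :=
  indicator_of_mem (show t ∈ Ioi T from h) _

theorem eb_of_le {c b T t : ℝ} (h : t ≤ T) : eb c b T t = 0 :=
  indicator_of_notMem (show t ∉ Ioi T from not_lt.mpr h) _

theorem eb_nonneg {c b T t : ℝ} (hc : 0 ≤ c) : 0 ≤ eb c b T t := by
  unfold eb
  exact indicator_nonneg (fun s _ => by positivity) t

theorem eb_le {c b T t : ℝ} (hc : 0 ≤ c) (hb : 0 ≤ b) : eb c b T t ≤ c := by
  rcases le_or_gt t T with h | h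
  · rw [eb_of_le h]; exact hc
  · rw [eb_of_lt h]
    have : Real.exp (-(b * (t - T))) ≤ 1 := by
      apply Real.exp_le_one_iff.mpr
      have : 0 ≤ b * (t - T) := mul_nonneg hb (by linarith)
      linarith
    calc c * Real.exp (-(b * (t - T))) ≤ c * 1 := by gcongr
      _ = c := mul_one c

theorem inter_Ioi {T : ℝ} (hT : 0 ≤ T) : Ioi (0 : ℝ) ∩ Ioi T = Ioi T := by
  ext x; simp only [mem_inter_iff, mem_Ioi]; exact ⟨fun h => h.2, fun h => ⟨hT.trans_lt h, h⟩⟩

theorem eb_integrable (c : ℝ) {b T : ℝ} (hb : 0 < b) (hT : 0 ≤ T) :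
    IntegrableOn (eb c b T) (Ioi 0) := by
  unfold eb
  rw [integrableOn_indicator_iff measurableSet_Ioi]
  have h := integrableOn_exp_mul_Ioi (a := -b) (by linarith) T
  have h2 : IntegrableOn (fun t => c * Real.exp (b * T) * Real.exp (-b * t)) (Ioi T) :=
    h.const_mul _
  rw [inter_comm, inter_Ioi hT] 
  refine h2.congr_fun (fun t _ => ?_) measurableSet_Ioi
  show c * Real.exp (b * T) * Real.exp (-b * t) = c * Real.exp (-(b * (t - T)))
  rw [mul_assoc, ← Real.exp_add]; congr 2; ring

theorem eb_integral (c : ℝ) {b T : ℝ} (hb : 0 < b) (hT : 0 ≤ T) :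
    ∫ t in Ioi 0, eb c b T t = c / b := by
  unfold eb
  rw [setIntegral_indicator measurableSet_Ioi, inter_Ioi hT]
  have h := integral_exp_mul_Ioi (a := -b) (by linarith) T
  have e : (fun t : ℝ => c * Real.exp (-(b * (t - T))))
      = fun t => (c * Real.exp (b * T)) * Real.exp (-b * t) := by
    funext t
    rw [mul_assoc, ← Real.exp_add]; congr 2; ring
  rw [e, integral_const_mul, h, show -b * T = -(b * T) by ring]
  have : Real.exp (b * T) * Real.exp (-(b * T)) = 1 := by rw [← Real.exp_add]; simp
  field_simp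
  linear_combination c * this

theorem eb_hat (c : ℝ) {b T : ℝ} (hT : 0 ≤ T) (z : ℂ) (hz : z.im < b) :
    ∫ t in Ioi (0 : ℝ), (eb c b T t : ℂ) * ex z t
      = (c : ℂ) * ex z T / ((b : ℂ) + Complex.I * z) := by
  have e0 : (fun t : ℝ => (eb c b T t : ℂ) * ex z t)
      = (Ioi T).indicator fun t : ℝ => ((c : ℂ) * Complex.exp ((b : ℂ) * T))
        * Complex.exp ((-((b : ℂ) + Complex.I * z)) * t) := by
    funext t
    by_cases h : t ∈ Ioi T
    · rw [indicator_of_mem h, eb_of_lt h]
      unfold ex
      push_cast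
      rw [mul_assoc (c : ℂ), mul_assoc (c : ℂ), ← Complex.exp_add, ← Complex.exp_add]
      congr 2; ring
    · rw [indicator_of_notMem h, eb_of_le (not_lt.mp h)]; simp
  have hre : (-((b : ℂ) + Complex.I * z)).re < 0 := by
    simp; linarith
  rw [e0, setIntegral_indicator measurableSet_Ioi, inter_Ioi hT, integral_const_mul,
    integral_exp_mul_complex_Ioi hre]
  have hne : (b : ℂ) + Complex.I * z ≠ 0 := by
    intro h
    rw [h] at hre; simp at hre
  have e1 : Complex.exp ((b : ℂ) * T) * Complex.exp (-((b : ℂ) + Complex.I * z) * T) = ex z T := by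
    rw [← Complex.exp_add]; unfold ex; congr 1; ring
  rw [← e1]
  field_simp

theorem eb_exp (c b T t y : ℝ) :
    eb c b T t * Real.exp (y * (t - T)) = eb c (b - y) T t := by
  rcases le_or_gt t T with h | h
  · rw [eb_of_le h, eb_of_le h, zero_mul]
  · rw [eb_of_lt h, eb_of_lt h, mul_assoc, ← Real.exp_add]; congr 2; ring

/-- Fubini for the correlation -/
theorem eb_corr (c : ℝ) {b T : ℝ} (hT : 0 ≤ T) (μ : ℝ → ℂ) (hμ : Integrable μ) (y : ℝ)
    (hy : y < b) (τ : ℝ) :
    ∫ t in Ioi (0 : ℝ), (eb c b T t : ℂ) * gf μ y (t + τ)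
      = ∫ s, μ s * ((c : ℂ) * ex (pt s y) T / ((b : ℂ) + Complex.I * pt s y)) * ex (pt s y) τ := by
  have hint : Integrable (Function.uncurry fun (t s : ℝ) =>
      (eb c b T t : ℂ) * (μ s * ex (pt s y) (t + τ)))
      ((volume.restrict (Ioi (0 : ℝ))).prod volume) := by
    have h1 : Integrable (fun t : ℝ => eb |c| (b - y) T t * Real.exp (y * (T + τ)))
        (volume.restrict (Ioi (0 : ℝ))) :=
      (eb_integrable |c| (by linarith) hT).mul_const _
    have h2 := h1.mul_prod hμ.norm
    refine Integrable.mono' h2 ?_ (ae_of_all _ ?_)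
    · have m1 : AEStronglyMeasurable (fun p : ℝ × ℝ => (eb c b T p.1 : ℂ))
          ((volume.restrict (Ioi (0 : ℝ))).prod volume) :=
        ((Complex.measurable_ofReal.comp (eb_measurable c b T)).comp
          measurable_fst).aestronglyMeasurable
      have m2 : AEStronglyMeasurable (fun p : ℝ × ℝ => μ p.2)
          ((volume.restrict (Ioi (0 : ℝ))).prod volume) := hμ.aestronglyMeasurable.comp_snd
      have m3 : AEStronglyMeasurable (fun p : ℝ × ℝ => ex (pt p.2 y) (p.1 + τ))
          ((volume.restrict (Ioi (0 : ℝ))).prod volume) := by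
        apply Continuous.aestronglyMeasurable
        unfold ex pt; fun_prop
      exact m1.mul (m2.mul m3)
    · rintro ⟨t, s⟩
      simp only [Function.uncurry_apply_pair]
      rw [norm_mul, norm_mul, norm_ex, pt_im, Complex.norm_real, Real.norm_eq_abs]
      have e1 : |eb c b T t| = eb |c| b T t := by
        rcases le_or_gt t T with h | h
        · rw [eb_of_le h, eb_of_le h, abs_zero]
        · rw [eb_of_lt h, eb_of_lt h, abs_mul, abs_of_pos (Real.exp_pos _)]
      rw [e1, ← eb_exp]
      apply le_of_eq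
      have e2 : Real.exp ((t + τ) * y) = Real.exp (y * (t - T)) * Real.exp (y * (T + τ)) := by
        rw [← Real.exp_add]; congr 1; ring
      rw [e2]; ring
  have hsw := integral_integral_swap hint
  have e1 : (fun t : ℝ => (eb c b T t : ℂ) * gf μ y (t + τ))
      = fun t : ℝ => ∫ s, (eb c b T t : ℂ) * (μ s * ex (pt s y) (t + τ)) := by
    funext t
    unfold gf
    rw [integral_const_mul]
  rw [e1, hsw]
  congr 1
  funext s
  have e2 : (fun t : ℝ => (eb c b T t : ℂ) * (μ s * ex (pt s y) (t + τ)))
      = fun t : ℝ => (μ s * ex (pt s y) τ) * ((eb c b T t : ℂ) * ex (pt s y) t) := by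
    funext t
    rw [ex_add]; ring
  rw [e2, integral_const_mul, eb_hat c hT _ (by rw [pt_im]; exact hy)]
  ring

theorem gf_continuous (μ : ℝ → ℂ) (hμ : Integrable μ) (y : ℝ) :
    Continuous fun t => gf μ y t := by
  unfold gf
  rw [continuous_iff_continuousAt]
  intro t₀
  apply continuousAt_of_dominated (bound := fun s => ‖μ s‖ * Real.exp (|y| * (|t₀| + 1)))
  · exact Eventually.of_forall fun t => hμ.aestronglyMeasurable.mul
      ((continuous_ex t).comp (continuous_pt y)).aestronglyMeasurable
  · filter_upwards [Metric.ball_mem_nhds t₀ one_pos] with t ht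
    refine ae_of_all _ fun s => ?_
    rw [norm_mul, norm_ex, pt_im]
    have h1 : |t| ≤ |t₀| + 1 := by
      have h2 := Metric.mem_ball.mp ht
      rw [Real.dist_eq] at h2
      have h3 : |t| ≤ |t - t₀| + |t₀| := by
        have := abs_add_le (t - t₀) t₀
        rwa [sub_add_cancel] at this
      linarith
    have : t * y ≤ |y| * (|t₀| + 1) := by
      calc t * y ≤ |t * y| := le_abs_self _
        _ = |y| * |t| := by rw [abs_mul, mul_comm]
        _ ≤ _ := by gcongr
    gcongr
  · exact hμ.norm.mul_const _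
  · exact ae_of_all _ fun s => (continuous_const.mul (continuous_ex_right _)).continuousAt

end RC
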