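import Pool.Agent.Q85.RC.Seq

/-! The limit weight and the limit function. -/

set_option autoImplicit false

open MeasureTheory Set Filter Topology

noncomputable section

namespace RC

/-- the limit exponent -/
def qI (S : ℕ → St) (t : ℝ) : ℝ := ⨅ j, (S j).q t

/-- the approximating functions -/
def gg (S : ℕ → St) (j : ℕ) (t : ℝ) : ℂ := gf (S j).μ (yy j) t

/-- the pieces of `f` -/
def fj (S : ℕ → St) (j : ℕ) (t : ℝ) : ℝ :=
  eb (mr j * Real.exp (-(S j).Q)) (MMr j) (S j).T t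

/-- the majorants of the pieces -/
def Bj (S : ℕ → St) (j : ℕ) (t : ℝ) : ℝ := eb (mr j) (MMr j - 1 / 2) (S j).T t

section
variable {S : ℕ → St} (h0 : S 0 = S0) (hV : ∀ j, Valid j (S j))
  (hR : ∀ j, Rel j (S j) (S (j + 1)))

include hV hR in
theorem q_anti (t : ℝ) : Antitone fun j => (S j).q t := by
  apply antitone_nat_of_succ_le
  intro j
  rw [(hR j).q_eq]
  exact qn_le_self (hV j).hq (hR j).Q_pos.le t

include hV in
theorem q_bdd (t : ℝ) : BddBelow (range fun j => (S j).q t) :=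
  ⟨0, by rintro _ ⟨j, rfl⟩; exact (hV j).hq.nonneg t⟩

include hV hR in
theorem qI_tendsto (t : ℝ) : Tendsto (fun j => (S j).q t) atTop (𝓝 (qI S t)) :=
  tendsto_atTop_ciInf (q_anti hV hR t) (q_bdd hV t)

include hV in
theorem qI_le (t : ℝ) (j : ℕ) : qI S t ≤ (S j).q t := ciInf_le (q_bdd hV t) j

include hV in
theorem qI_nonneg (t : ℝ) : 0 ≤ qI S t := le_ciInf fun j => (hV j).hq.nonneg t

include hV in
theorem qI_zero (t : ℝ) (ht : t ≤ 0) : qI S t = 0 :=
  le_antisymm ((qI_le hV t 0).trans ((hV 0).hq.zero t ht).le) (qI_nonneg hV t)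

include hV in
theorem qI_mono : Monotone (qI S) := by
  intro s t hst
  apply le_ciInf
  intro j
  exact (qI_le hV s j).trans ((hV j).hq.mono hst)

include hV hR in
theorem qI_sub (s t : ℝ) : qI S (s + t) ≤ qI S s + qI S t :=
  le_of_tendsto_of_tendsto' (qI_tendsto hV hR (s + t))
    ((qI_tendsto hV hR s).add (qI_tendsto hV hR t)) fun j => (hV j).hq.sub s t

include h0 hR in
theorem T_ge (j : ℕ) : (j : ℝ) ≤ (S j).T := by
  cases j with
  | zero => rw [h0]; simp [S0]
  | succ j => have := (hR j).T_ge; push_cast; exact this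

include h0 hR in
theorem T_nonneg (j : ℕ) : 0 ≤ (S j).T := (Nat.cast_nonneg j).trans (T_ge h0 hR j)

include h0 hV hR in
theorem qT (j : ℕ) : (S j).q (S j).T ≤ (S j).Q := by
  cases j with
  | zero => rw [h0]; simp [S0]
  | succ j =>
    rw [(hR j).q_eq]
    exact qn_T (hV j).hq (hR j).Q_pos.le

include h0 hV hR in
theorem qT' (j J : ℕ) (h : j ≤ J) : (S J).q (S j).T ≤ (S j).Q :=
  (q_anti hV hR _ h).trans (qT h0 hV hR j)

include hV hR in
theorem qI_growth (j : ℕ) (t : ℝ) (ht : (S (j + 1)).T ≤ t) : qI S t ≤ 4 * yy (j + 1) * t := by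
  have hT : 0 < (S (j + 1)).T := by
    have := (hR j).T_ge
    have h2 : (0 : ℝ) ≤ j := Nat.cast_nonneg j
    linarith
  have ht0 : 0 < t := hT.trans_le ht
  have hQ := (hR j).Q_pos
  set T := (S (j + 1)).T with hTd
  set Q := (S (j + 1)).Q with hQd
  have h1 : qI S t ≤ qn (S j).q Q T t := by
    rw [← (hR j).q_eq]; exact qI_le hV t (j + 1)
  refine h1.trans ((qn_le (T := T) (hV j).hq hQ.le t ⌈t / T⌉₊).trans ?_)
  have h2 : t ≤ ⌈t / T⌉₊ * T := by
    have := Nat.le_ceil (t / T)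
    rwa [div_le_iff₀ hT] at this
  rw [(hV j).hq.zero _ (by linarith), add_zero]
  have h3 : (⌈t / T⌉₊ : ℝ) < t / T + 1 := Nat.ceil_lt_add_one (by positivity)
  have h4 := (hR j).QT
  have h5 := yy_pos (j + 1)
  calc (⌈t / T⌉₊ : ℝ) * Q ≤ (t / T + 1) * (2 * yy (j + 1) * T) := by gcongr
    _ = 2 * yy (j + 1) * (t + T) := by field_simp
    _ ≤ 2 * yy (j + 1) * (t + t) := by gcongr
    _ = 4 * yy (j + 1) * t := by ring

include hV hR in
theorem qI_lim : Tendsto (fun t => qI S t / t) atTop (𝓝 0) := by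
  rw [Metric.tendsto_atTop]
  intro ε hε
  have hy : Tendsto (fun j : ℕ => 4 * yy (j + 1)) atTop (𝓝 (4 * 0)) := by
    apply Tendsto.const_mul
    unfold yy
    exact (tendsto_pow_atTop_nhds_zero_of_lt_one (by norm_num) (by norm_num)).comp
      ((tendsto_add_atTop_nat 1).comp (tendsto_add_atTop_nat 1))
  rw [mul_zero] at hy
  obtain ⟨j, hj⟩ := (hy.eventually_lt_const hε).exists
  refine ⟨max (S (j + 1)).T 1, fun t ht => ?_⟩
  have h1 : (S (j + 1)).T ≤ t := (le_max_left _ _).trans ht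
  have h2 : 1 ≤ t := (le_max_right _ _).trans ht
  have h3 := qI_growth hV hR j t h1
  have h4 := qI_nonneg hV t
  rw [Real.dist_eq, sub_zero, abs_of_nonneg (by positivity), div_lt_iff₀ (by linarith)]
  nlinarith

include h0 hV hR in
theorem weighted (j J : ℕ) (h : j ≤ J) (t τ : ℝ) (hτ : 0 ≤ τ) :
    fj S j t * Real.exp ((S J).q (t + τ)) ≤ Real.exp (τ / 2) * Bj S j t := by
  unfold fj Bj
  rcases le_or_gt t (S j).T with ht | ht
  · rw [eb_of_le ht, eb_of_le ht]; simp
  · rw [eb_of_lt ht, eb_of_lt ht]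
    have h1 := (hV J).hq.sub t τ
    have h2 := (hV J).hq.sub (S j).T (t - (S j).T)
    rw [add_sub_cancel] at h2
    have h3 := (hV J).hq.up (t - (S j).T) (by linarith)
    have h4 := (hV J).hq.up τ hτ
    have h5 := qT' h0 hV hR j J h
    have h6 : (S J).q (t + τ) ≤ (S j).Q + (t - (S j).T) / 2 + τ / 2 := by linarith
    have hm := mr_pos j
    calc mr j * Real.exp (-(S j).Q) * Real.exp (-(MMr j * (t - (S j).T)))
          * Real.exp ((S J).q (t + τ))
        ≤ mr j * Real.exp (-(S j).Q) * Real.exp (-(MMr j * (t - (S j).T)))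
          * Real.exp ((S j).Q + (t - (S j).T) / 2 + τ / 2) := by gcongr
      _ = mr j * Real.exp (-(S j).Q + -(MMr j * (t - (S j).T))
          + ((S j).Q + (t - (S j).T) / 2 + τ / 2)) := by
          rw [Real.exp_add (-(S j).Q + _), Real.exp_add (-(S j).Q)]; ring
      _ = mr j * Real.exp (τ / 2 + -((MMr j - 1 / 2) * (t - (S j).T))) := by
          congr 2; ring
      _ = Real.exp (τ / 2) * (mr j * Real.exp (-((MMr j - 1 / 2) * (t - (S j).T)))) := by
          rw [Real.exp_add]; ring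

theorem fj_nonneg (S : ℕ → St) (j : ℕ) (t : ℝ) : 0 ≤ fj S j t :=
  eb_nonneg (mul_nonneg (mr_pos j).le (Real.exp_pos _).le)

theorem Bj_nonneg (S : ℕ → St) (j : ℕ) (t : ℝ) : 0 ≤ Bj S j t := eb_nonneg (mr_pos j).le

include h0 hR in
theorem fj_le (j : ℕ) (t : ℝ) : fj S j t ≤ (1 / 4) ^ j := by
  refine (eb_le (mul_nonneg (mr_pos j).le (Real.exp_pos _).le) (MMr_pos j).le).trans ?_
  cases j with
  | zero => rw [h0]; simp [S0, mr]
  | succ j => rw [mul_comm]; exact (hR j).Qm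

include h0 hR in
theorem Bj_integrable (j : ℕ) : IntegrableOn (Bj S j) (Ioi 0) :=
  eb_integrable _ (by linarith [MMr_one_le j]) (T_nonneg h0 hR j)

include h0 hR in
theorem Bj_integral (j : ℕ) : ∫ t in Ioi 0, Bj S j t ≤ 2 * (1 / 2) ^ j := by
  have h1 := eb_integral (mr j) (b := MMr j - 1 / 2) (by linarith [MMr_one_le j])
    (T_nonneg h0 hR j)
  have h2 := MMr_one_le j
  unfold Bj
  rw [h1, div_le_iff₀ (by linarith)]
  have e : mr j = (1 / 2) ^ j * MMr j := by
    unfold mr MMr; rw [← mul_pow]; norm_num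
  rw [e]
  have h3 : (0 : ℝ) < (1 / 2) ^ j := by positivity
  nlinarith

include h0 hR in
theorem fj_integrable (j : ℕ) : IntegrableOn (fj S j) (Ioi 0) :=
  eb_integrable _ (MMr_pos j) (T_nonneg h0 hR j)

/-! ### the limit function -/

include hR in
theorem gg_cauchy (t : ℝ) (ht : 0 ≤ t) (n₀ : ℕ) (hn : t ≤ n₀ + 1) (n : ℕ) :
    dist (gg S (n + n₀) t) (gg S (n + 1 + n₀) t)
      ≤ (Real.exp (t / 2) * (1 / 2) ^ (n₀ + 3)) * (1 / 2) ^ n := by
  have h1 := (hR (n + n₀)).close t ht (by push_cast; have : (0 : ℝ) ≤ n := Nat.cast_nonneg n; linarith)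
  rw [dist_comm, dist_eq_norm]
  unfold gg
  have e : n + 1 + n₀ = n + n₀ + 1 := by ring
  rw [e]
  refine h1.trans (le_of_eq ?_)
  ring

include hR in
theorem gg_exists_lim (t : ℝ) (ht : 0 ≤ t) : ∃ l : ℂ, Tendsto (fun j => gg S j t) atTop (𝓝 l) := by
  obtain ⟨n₀, hn⟩ := exists_nat_ge t
  have hc : CauchySeq fun n => gg S (n + n₀) t :=
    cauchySeq_of_le_geometric (1 / 2) _ (by norm_num) fun n =>
      gg_cauchy hR t ht n₀ (by linarith) n
  obtain ⟨l, hl⟩ := cauchySeq_tendsto_of_complete hc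
  exact ⟨l, (tendsto_add_atTop_iff_nat n₀).mp hl⟩

/-- the limit function -/
def gI (S : ℕ → St) (hR : ∀ j, Rel j (S j) (S (j + 1))) (t : ℝ) : ℂ :=
  open Classical in
  if ht : 0 ≤ t then Classical.choose (gg_exists_lim hR t ht) else 0

theorem gI_tendsto (t : ℝ) (ht : 0 ≤ t) : Tendsto (fun j => gg S j t) atTop (𝓝 (gI S hR t)) := by
  unfold gI
  rw [dif_pos ht]
  exact Classical.choose_spec (gg_exists_lim hR t ht)

include hV in
theorem gg_bound (j : ℕ) (t : ℝ) (ht : 0 ≤ t) : ‖gg S j t‖ ≤ 2 * Real.exp ((S j).q t) := by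
  refine ((hV j).G t ht).trans ?_
  have : 0 < (1 / 2 : ℝ) ^ j := by positivity
  gcongr
  linarith

include hV in
theorem gI_bound (t : ℝ) (ht : 0 ≤ t) : ‖gI S hR t‖ ≤ 2 * Real.exp (qI S t) :=
  le_of_tendsto_of_tendsto' (gI_tendsto hR t ht).norm
    (((Real.continuous_exp.tendsto _).comp (qI_tendsto hV hR t)).const_mul 2)
    fun j => gg_bound hV j t ht

theorem gI_close (t : ℝ) (ht : 0 ≤ t) (ht1 : t ≤ 1) :
    ‖gI S hR t - gg S 0 t‖ ≤ 1 / 4 * Real.exp (t / 2) := by
  have h := dist_le_of_le_geometric_of_tendsto₀ (1 / 2 : ℝ)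
    (Real.exp (t / 2) * (1 / 2) ^ (0 + 3)) (by norm_num)
    (f := fun n => gg S (n + 0) t) (fun n => gg_cauchy hR t ht 0 (by push_cast; linarith) n)
    (by simpa using gI_tendsto hR t ht)
  rw [dist_comm, dist_eq_norm] at h
  simp only [add_zero] at h
  refine h.trans (le_of_eq ?_)
  norm_num
  ring

include hV in
theorem gI_measurable : Measurable (gI S hR) := by
  have h : Tendsto (fun (j : ℕ) (t : ℝ) => (Ici (0 : ℝ)).indicator (gg S j) t) atTop
      (𝓝 (gI S hR)) := by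
    rw [tendsto_pi_nhds]
    intro t
    by_cases ht : 0 ≤ t
    · simp only [indicator_of_mem (show t ∈ Ici (0 : ℝ) from ht)]
      exact gI_tendsto hR t ht
    · simp only [indicator_of_notMem (show t ∉ Ici (0 : ℝ) from ht)]
      unfold gI
      rw [dif_neg ht]
      exact tendsto_const_nhds
  refine measurable_of_tendsto_metrizable (fun j => ?_) h
  exact (gf_continuous (S j).μ (hV j).μi (yy j)).measurable.indicator measurableSet_Ici

end

end RC
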