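import Mathlib

/-!
Pushing a functional: analytic continuation in the norm of bounded families.
-/

set_option autoImplicit false

open MeasureTheory Set Filter Topology Metric
open scoped ENNReal

noncomputable section

namespace RC

/-- second order estimate, uniform in the family -/
theorem second_order (f : ℂ → ℂ) (c : ℂ) (r : ℝ) (hr : 0 < r)
    (hd : DifferentiableOn ℂ f (ball c r)) (hb : ∀ z ∈ ball c r, ‖f z‖ ≤ 1) (z : ℂ)
    (hz : z ∈ ball c r) :
    ‖deriv f c‖ ≤ 2 / r ∧ ‖f z - f c - (z - c) * deriv f c‖ ≤ 4 / r ^ 2 * ‖z - c‖ ^ 2 := by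
  have hc : c ∈ ball c r := mem_ball_self hr
  have hm : MapsTo f (ball c r) (closedBall (f c) 2) := by
    intro w hw
    rw [mem_closedBall, dist_eq_norm]
    calc ‖f w - f c‖ ≤ ‖f w‖ + ‖f c‖ := norm_sub_le _ _
      _ ≤ 2 := by linarith [hb w hw, hb c hc]
  have h1 : ∀ w ∈ ball c r, ‖dslope f c w‖ ≤ 2 / r := fun w hw =>
    Complex.norm_dslope_le_div_of_mapsTo_ball hd hm hw
  have hdd : DifferentiableOn ℂ (dslope f c) (ball c r) :=
    (Complex.differentiableOn_dslope (isOpen_ball.mem_nhds hc)).mpr hd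
  have hm2 : MapsTo (dslope f c) (ball c r) (closedBall (dslope f c c) (4 / r)) := by
    intro w hw
    rw [mem_closedBall, dist_eq_norm]
    calc ‖dslope f c w - dslope f c c‖ ≤ ‖dslope f c w‖ + ‖dslope f c c‖ := norm_sub_le _ _
      _ ≤ 2 / r + 2 / r := add_le_add (h1 w hw) (h1 c hc)
      _ = 4 / r := by ring
  have h2 := Complex.norm_dslope_le_div_of_mapsTo_ball hdd hm2 hz
  have hds : dslope f c c = deriv f c := dslope_same f c
  constructor
  · rw [← hds]; exact h1 c hc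
  · by_cases hzc : z = c
    · subst hzc; simp
    · have e1 : f z - f c - (z - c) * deriv f c
          = (z - c) * ((z - c) * dslope (dslope f c) c z) := by
        rw [dslope_of_ne _ hzc, slope_def_field, dslope_of_ne _ hzc, slope_def_field, hds]
        have : z - c ≠ 0 := sub_ne_zero.mpr hzc
        field_simp
      rw [e1, norm_mul, norm_mul]
      calc ‖z - c‖ * (‖z - c‖ * ‖dslope (dslope f c) c z‖)
          ≤ ‖z - c‖ * (‖z - c‖ * (4 / r / r)) := by gcongr
        _ = 4 / r ^ 2 * ‖z - c‖ ^ 2 := by field_simp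

variable {ι : Type*}

/-- The family as a function with values in `ℓ^∞`. -/
def VV (D : Set ℂ) (φ : ι → ℂ → ℂ) (hb : ∀ i, ∀ z ∈ D, ‖φ i z‖ ≤ 1) (z : ℂ) :
    lp (fun _ : ι => ℂ) ∞ :=
  open Classical in
  if h : z ∈ D then ⟨fun i => φ i z, memℓp_infty ⟨1, by rintro _ ⟨i, rfl⟩; exact hb i z h⟩⟩ else 0

theorem VV_apply (D : Set ℂ) (φ : ι → ℂ → ℂ) (hb : ∀ i, ∀ z ∈ D, ‖φ i z‖ ≤ 1) (z : ℂ)
    (hz : z ∈ D) (i : ι) : VV D φ hb z i = φ i z := by
  unfold VV
  rw [dif_pos hz]

theorem VV_differentiableOn (D : Set ℂ) (hD : IsOpen D) (φ : ι → ℂ → ℂ)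
    (hφ : ∀ i, DifferentiableOn ℂ (φ i) D) (hb : ∀ i, ∀ z ∈ D, ‖φ i z‖ ≤ 1) :
    DifferentiableOn ℂ (VV D φ hb) D := by
  intro c hc
  obtain ⟨r, hr, hrD⟩ := Metric.isOpen_iff.mp hD c hc
  have key : ∀ i, ∀ z ∈ ball c r, ‖deriv (φ i) c‖ ≤ 2 / r ∧
      ‖φ i z - φ i c - (z - c) * deriv (φ i) c‖ ≤ 4 / r ^ 2 * ‖z - c‖ ^ 2 := fun i z hz =>
    second_order (φ i) c r hr ((hφ i).mono hrD) (fun w hw => hb i w (hrD hw)) z hz
  let W : lp (fun _ : ι => ℂ) ∞ := ⟨fun i => deriv (φ i) c, memℓp_infty ⟨2 / r, by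
    rintro _ ⟨i, rfl⟩; exact (key i c (mem_ball_self hr)).1⟩⟩
  have hW : ∀ i, W i = deriv (φ i) c := fun i => rfl
  have hH : HasDerivAt (VV D φ hb) W c := by
    rw [hasDerivAt_iff_isLittleO]
    have hO : (fun z => VV D φ hb z - VV D φ hb c - (z - c) • W) =O[𝓝 c]
        fun z => ‖z - c‖ ^ 2 := by
      apply Asymptotics.IsBigO.of_bound (4 / r ^ 2)
      filter_upwards [ball_mem_nhds c hr] with z hz
      have hzD : z ∈ D := hrD hz
      rw [norm_pow, norm_norm]
      apply lp.norm_le_of_forall_le (by positivity)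
      intro i
      have e : (VV D φ hb z - VV D φ hb c - (z - c) • W) i
          = φ i z - φ i c - (z - c) * deriv (φ i) c := by
        rw [lp.coeFn_sub, lp.coeFn_sub, lp.coeFn_smul]
        simp only [Pi.sub_apply, Pi.smul_apply, smul_eq_mul]
        rw [VV_apply D φ hb z hzD, VV_apply D φ hb c hc, hW]
      rw [e]
      exact (key i z hz).2
    exact hO.trans_isLittleO (Asymptotics.isLittleO_pow_sub_sub c (by norm_num))
  exact hH.differentiableAt.differentiableWithinAt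

/-- a continuous complex functional vanishing on a subspace and not at `x ∉ closure` -/
theorem exists_functional {E : Type*} [NormedAddCommGroup E] [NormedSpace ℂ E]
    (M : Submodule ℂ E) (x : E) (hx : x ∉ M.topologicalClosure) :
    ∃ f : E →L[ℂ] ℂ, (∀ a ∈ M, f a = 0) ∧ f x ≠ 0 := by
  have hcl : IsClosed (M.topologicalClosure : Set E) := M.isClosed_topologicalClosure
  have hcx : Convex ℝ (M.topologicalClosure : Set E) :=
    (M.topologicalClosure.restrictScalars ℝ).convex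
  obtain ⟨f, u, hu, hux⟩ := RCLike.geometric_hahn_banach_closed_point (𝕜 := ℂ) hcx hcl hx
  have hle : M ≤ M.topologicalClosure := M.le_topologicalClosure
  have h0 : ∀ a ∈ M, f a = 0 := by
    intro a ha
    by_contra hne
    have hpos : 0 < ‖f a‖ ^ 2 := by positivity
    set t : ℝ := |u| / ‖f a‖ ^ 2 with ht
    have hmem : ((t : ℂ) * (starRingEnd ℂ) (f a)) • a ∈ M := M.smul_mem _ ha
    have h1 := hu _ (hle hmem)
    rw [map_smul, smul_eq_mul] at h1
    have e : (t : ℂ) * (starRingEnd ℂ) (f a) * f a = ((t * ‖f a‖ ^ 2 : ℝ) : ℂ) := by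
      rw [mul_assoc, mul_comm ((starRingEnd ℂ) (f a)), Complex.mul_conj, Complex.normSq_eq_norm_sq]
      push_cast; ring
    rw [e] at h1
    have e2 : t * ‖f a‖ ^ 2 = |u| := by rw [ht]; field_simp
    rw [e2] at h1
    have : RCLike.re ((|u| : ℝ) : ℂ) = |u| := by simp
    rw [this] at h1
    exact absurd h1 (not_lt.mpr (le_abs_self u))
  refine ⟨f, h0, ?_⟩
  intro hfx
  have h1 := hu 0 (hle M.zero_mem)
  rw [map_zero] at h1
  rw [hfx] at hux
  have : RCLike.re (0 : ℂ) = 0 := by simp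
  rw [this] at h1 hux
  linarith

/-- the point `s + i y` -/
def pt (s y : ℝ) : ℂ := (s : ℂ) + (y : ℂ) * Complex.I

@[simp] theorem pt_re (s y : ℝ) : (pt s y).re = s := by simp [pt]

@[simp] theorem pt_im (s y : ℝ) : (pt s y).im = y := by simp [pt]

theorem continuous_pt (y : ℝ) : Continuous fun s : ℝ => pt s y := by
  unfold pt; fun_prop

theorem VV_norm_le (D : Set ℂ) (φ : ι → ℂ → ℂ) (hb : ∀ i, ∀ z ∈ D, ‖φ i z‖ ≤ 1) (z : ℂ) :
    ‖VV D φ hb z‖ ≤ 1 := by
  by_cases hz : z ∈ D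
  · apply lp.norm_le_of_forall_le zero_le_one
    intro i
    rw [VV_apply D φ hb z hz]; exact hb i z hz
  · unfold VV; rw [dif_neg hz]; simp

section
variable (D : Set ℂ) (hDo : IsOpen D) (φ : ι → ℂ → ℂ)
  (hφ : ∀ i, DifferentiableOn ℂ (φ i) D) (hb : ∀ i, ∀ z ∈ D, ‖φ i z‖ ≤ 1)
  (μ : ℝ → ℂ) (a y : ℝ) (hμ : Integrable μ) (hμs : ∀ s, s ∉ Icc a (a + 1) → μ s = 0)
  (hK : ∀ s ∈ Icc a (a + 1), pt s y ∈ D)

include hDo hφ hK in
theorem VV_contOn : ContinuousOn (fun s => VV D φ hb (pt s y)) (Icc a (a + 1)) := by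
  have h := (VV_differentiableOn D hDo φ hφ hb).continuousOn
  exact h.comp (continuous_pt y).continuousOn hK

include hDo hφ hμ hμs hK in
theorem int_aux : Integrable fun s => μ s • VV D φ hb (pt s y) := by
  have hc := VV_contOn D hDo φ hφ hb a y hK
  have h1 : IntegrableOn (fun s => μ s • VV D φ hb (pt s y)) (Icc a (a + 1)) := by
    refine Integrable.mono' (g := fun s => ‖μ s‖) hμ.norm.integrableOn
      (hμ.aestronglyMeasurable.restrict.smul (hc.aestronglyMeasurable measurableSet_Icc)) ?_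
    refine ae_of_all _ fun s => ?_
    rw [norm_smul]
    calc ‖μ s‖ * ‖VV D φ hb (pt s y)‖ ≤ ‖μ s‖ * 1 := by
          gcongr; exact VV_norm_le D φ hb _
      _ = ‖μ s‖ := mul_one _
  have h2 := h1.integrable_indicator measurableSet_Icc
  refine h2.congr (ae_of_all _ fun s => ?_)
  by_cases hs : s ∈ Icc a (a + 1)
  · simp only [indicator_of_mem hs]
  · simp only [indicator_of_notMem hs]
    rw [hμs s hs, zero_smul]

include hDo hφ hμ hμs hK in
theorem int_apply (i : ι) :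
    (∫ s, μ s • VV D φ hb (pt s y) : lp (fun _ : ι => ℂ) ∞) i = ∫ s, μ s * φ i (pt s y) := by
  have h1 := int_aux D hDo φ hφ hb μ a y hμ hμs hK
  have h2 := (lp.evalCLM ℂ (fun _ : ι => ℂ) ∞ i).integral_comp_comm h1
  have e : ∀ v : lp (fun _ : ι => ℂ) ∞, (lp.evalCLM ℂ (fun _ : ι => ℂ) ∞ i) v = v i :=
    fun v => rfl
  rw [e] at h2
  rw [← h2]
  congr 1
  funext s
  rw [e, lp.coeFn_smul, Pi.smul_apply, smul_eq_mul]
  by_cases hs : s ∈ Icc a (a + 1)
  · rw [VV_apply D φ hb _ (hK s hs)]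
  · rw [hμs s hs, zero_mul, zero_mul]

include hDo hφ hμ hμs hK in
theorem int_functional (f : lp (fun _ : ι => ℂ) ∞ →L[ℂ] ℂ) :
    f (∫ s, μ s • VV D φ hb (pt s y)) = ∫ s, μ s * f (VV D φ hb (pt s y)) := by
  have h1 := int_aux D hDo φ hφ hb μ a y hμ hμs hK
  rw [← f.integral_comp_comm h1]
  congr 1
  funext s
  rw [map_smul, smul_eq_mul]

/-- the vectors represented by densities on the segment -/
def MM (hDo : IsOpen D) (hφ : ∀ i, DifferentiableOn ℂ (φ i) D)
    (hK : ∀ s ∈ Icc a (a + 1), pt s y ∈ D) : Submodule ℂ (lp (fun _ : ι => ℂ) ∞) where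
  carrier := {v | ∃ ρ : ℝ → ℂ, Integrable ρ ∧ (∀ s, s ∉ Icc a (a + 1) → ρ s = 0) ∧
    v = ∫ s, ρ s • VV D φ hb (pt s y)}
  add_mem' := by
    rintro _ _ ⟨ρ, h1, h2, rfl⟩ ⟨η, h3, h4, rfl⟩
    refine ⟨fun s => ρ s + η s, h1.add h3, fun s hs => by simp only [h2 s hs, h4 s hs, add_zero], ?_⟩
    rw [← integral_add (int_aux D hDo φ hφ hb ρ a y h1 h2 hK)
      (int_aux D hDo φ hφ hb η a y h3 h4 hK)]
    congr 1
    funext s
    rw [add_smul]
  zero_mem' := ⟨fun _ => 0, integrable_zero _ _ _, fun _ _ => rfl, by simp⟩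
  smul_mem' := by
    rintro c _ ⟨ρ, h1, h2, rfl⟩
    refine ⟨fun s => c * ρ s, h1.const_mul c, fun s hs => by simp only [h2 s hs, mul_zero], ?_⟩
    rw [← integral_smul]
    congr 1
    funext s
    rw [mul_smul]
end

/-- **Push lemma.** -/
theorem push (D : Set ℂ) (hDo : IsOpen D) (hDc : IsPreconnected D) (φ : ι → ℂ → ℂ)
    (hφ : ∀ i, DifferentiableOn ℂ (φ i) D) (hb : ∀ i, ∀ z ∈ D, ‖φ i z‖ ≤ 1)
    (μ : ℝ → ℂ) (a y : ℝ) (hμ : Integrable μ) (hμs : ∀ s, s ∉ Icc a (a + 1) → μ s = 0)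
    (hK : ∀ s ∈ Icc a (a + 1), pt s y ∈ D) (a' y' : ℝ)
    (hK' : ∀ s ∈ Icc a' (a' + 1), pt s y' ∈ D) (δ : ℝ) (hδ : 0 < δ) :
    ∃ ρ : ℝ → ℂ, Integrable ρ ∧ (∀ s, s ∉ Icc a' (a' + 1) → ρ s = 0) ∧
      ∀ i, ‖(∫ s, ρ s * φ i (pt s y')) - ∫ s, μ s * φ i (pt s y)‖ ≤ δ := by
  set M := MM D φ hb a' y' hDo hφ hK' with hM
  set x : lp (fun _ : ι => ℂ) ∞ := ∫ s, μ s • VV D φ hb (pt s y) with hx
  have hclos : x ∈ M.topologicalClosure := by
    by_contra hcon
    obtain ⟨f, hf0, hfx⟩ := exists_functional M x hcon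
    apply hfx
    set G : ℂ → ℂ := fun z => f (VV D φ hb z) with hG
    have hGd : DifferentiableOn ℂ G D :=
      f.differentiable.comp_differentiableOn (VV_differentiableOn D hDo φ hφ hb)
    have hGc : ContinuousOn (fun s => G (pt s y')) (Icc a' (a' + 1)) :=
      hGd.continuousOn.comp (continuous_pt y').continuousOn hK'
    -- test density
    set ρ : ℝ → ℂ := (Icc a' (a' + 1)).indicator fun s => (starRingEnd ℂ) (G (pt s y')) with hρ
    have hconj : ContinuousOn (fun s => (starRingEnd ℂ) (G (pt s y'))) (Icc a' (a' + 1)) :=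
      Complex.continuous_conj.comp_continuousOn hGc
    have hρi : Integrable ρ :=
      (hconj.integrableOn_compact isCompact_Icc).integrable_indicator measurableSet_Icc
    have hρs : ∀ s, s ∉ Icc a' (a' + 1) → ρ s = 0 := fun s hs => indicator_of_notMem hs _
    have h0 := hf0 _ (show (∫ s, ρ s • VV D φ hb (pt s y')) ∈ M from ⟨ρ, hρi, hρs, rfl⟩)
    rw [int_functional D hDo φ hφ hb ρ a' y' hρi hρs hK' f] at h0
    have e1 : (fun s => ρ s * f (VV D φ hb (pt s y')))
        = (Icc a' (a' + 1)).indicator fun s => ((‖G (pt s y')‖ ^ 2 : ℝ) : ℂ) := by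
      funext s
      by_cases hs : s ∈ Icc a' (a' + 1)
      · rw [indicator_of_mem hs, hρ, indicator_of_mem hs]
        rw [mul_comm, Complex.mul_conj, Complex.normSq_eq_norm_sq]
      · rw [indicator_of_notMem hs, hρs s hs, zero_mul]
    rw [e1, integral_indicator measurableSet_Icc, integral_complex_ofReal] at h0
    have h0' : ∫ s in Icc a' (a' + 1), ‖G (pt s y')‖ ^ 2 = 0 := by exact_mod_cast h0
    have hint : IntegrableOn (fun s => ‖G (pt s y')‖ ^ 2) (Icc a' (a' + 1)) :=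
      (hGc.norm.pow 2).integrableOn_compact isCompact_Icc
    have hae := (setIntegral_eq_zero_iff_of_nonneg_ae (ae_of_all _ fun s => by positivity)
      hint).mp h0'
    have hEq := Measure.eqOn_Icc_of_ae_eq volume (by linarith : a' ≠ a' + 1) hae
      (hGc.norm.pow 2) continuousOn_const
    have hz : ∀ s ∈ Icc a' (a' + 1), G (pt s y') = 0 := by
      intro s hs
      have := hEq hs
      simp only [Pi.zero_apply] at this
      have h2 : ‖G (pt s y')‖ = 0 := by
        exact pow_eq_zero_iff (two_ne_zero) |>.mp this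
      exact norm_eq_zero.mp h2
    have hana : AnalyticOnNhd ℂ G D := hGd.analyticOnNhd hDo
    have hz0 : pt (a' + 1 / 2) y' ∈ D := hK' _ ⟨by linarith, by linarith⟩
    have hfreq : ∃ᶠ z in 𝓝[≠] (pt (a' + 1 / 2) y'), G z = 0 := by
      have ht : Tendsto (fun s : ℝ => pt s y') (𝓝[≠] (a' + 1 / 2)) (𝓝[≠] (pt (a' + 1 / 2) y')) := by
        apply tendsto_nhdsWithin_of_tendsto_nhds_of_eventually_within
        · exact ((continuous_pt y').tendsto _).mono_left nhdsWithin_le_nhds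
        · filter_upwards [self_mem_nhdsWithin] with s hs
          intro h
          apply hs
          have := congrArg Complex.re h
          simpa using this
      apply ht.frequently
      apply Eventually.frequently
      have : Icc a' (a' + 1) ∈ 𝓝 (a' + 1 / 2) := Icc_mem_nhds (by linarith) (by linarith)
      filter_upwards [nhdsWithin_le_nhds this] with s hs
      exact hz s hs
    have hall := hana.eqOn_zero_of_preconnected_of_frequently_eq_zero hDc hz0 hfreq
    rw [hx, int_functional D hDo φ hφ hb μ a y hμ hμs hK f]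
    have : (fun s => μ s * f (VV D φ hb (pt s y))) = fun _ => 0 := by
      funext s
      by_cases hs : s ∈ Icc a (a + 1)
      · have := hall (hK s hs)
        simp only [hG, Pi.zero_apply] at this
        rw [this, mul_zero]
      · rw [hμs s hs, zero_mul]
    rw [this, integral_zero]
  have hcl2 : x ∈ closure (M : Set (lp (fun _ : ι => ℂ) ∞)) := hclos
  obtain ⟨v, hv, hvd⟩ := Metric.mem_closure_iff.mp hcl2 δ hδ
  obtain ⟨ρ, h1, h2, h3⟩ := hv
  refine ⟨ρ, h1, h2, fun i => ?_⟩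
  rw [← int_apply D hDo φ hφ hb ρ a' y' h1 h2 hK' i, ← int_apply D hDo φ hφ hb μ a y hμ hμs hK i,
    ← h3, ← hx]
  have e : v i - x i = (v - x) i := by rw [lp.coeFn_sub]; rfl
  rw [e]
  refine (lp.norm_apply_le_norm ENNReal.top_ne_zero (v - x) i).trans ?_
  rw [← dist_eq_norm, dist_comm]
  exact hvd.le

end RC
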