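import Pool.Agent.Q85.RC.Step4
import Pool.Agent.Q85.RC.Fun

/-! The sequence of states and the limit weight. -/

set_option autoImplicit false

open MeasureTheory Set Filter Topology

noncomputable section

namespace RC

/-- the initial density -/
def mu0 : ℝ → ℂ := (Icc (MMr 1) (MMr 1 + 1)).indicator fun _ => (1 : ℂ)

/-- the initial state -/
def S0 : St := ⟨0, 0, 1 / 2, fun t => max t 0 / 2, kap 0, mu0⟩

theorem mu0_integrable : Integrable mu0 := by
  unfold mu0
  rw [integrable_indicator_iff measurableSet_Icc]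
  exact integrableOn_const (by simp)

theorem mu0_supp (s : ℝ) (hs : s ∉ Icc (MMr (0 + 1)) (MMr (0 + 1) + 1)) : mu0 s = 0 :=
  indicator_of_notMem hs _

theorem mu0_norm : ∫ s, ‖mu0 s‖ = 1 := by
  have e : (fun s => ‖mu0 s‖) = (Icc (MMr 1) (MMr 1 + 1)).indicator fun _ => (1 : ℝ) := by
    funext s
    unfold mu0
    by_cases hs : s ∈ Icc (MMr 1) (MMr 1 + 1)
    · simp only [indicator_of_mem hs, norm_one]
    · simp only [indicator_of_notMem hs, norm_zero]
  rw [e, integral_indicator measurableSet_Icc]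
  simp

theorem mu0_int : ∫ s, mu0 s = 1 := by
  unfold mu0
  rw [integral_indicator measurableSet_Icc]
  simp

theorem S0_valid : Valid 0 S0 := by
  have hy : yy 0 = 1 / 4 := by unfold yy; norm_num
  have hA : ∀ s ∈ Icc (MMr (0 + 1)) (MMr (0 + 1) + 1), ‖Af 0 (kap 0) (pt s (yy 0))‖ ≤ 1 / 64 := by
    intro s hs
    have hM : 1 ≤ MMr (0 + 1) := MMr_one_le _
    have hs1 : MMr (0 + 1) ≤ s := hs.1
    apply Af_norm_le
    · rw [pt_im, hy]; norm_num
    · rw [pt_im, hy]; norm_num
    · rw [pt_re]; linarith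
    · have hpos : 0 < (pt s (yy 0)).re := by rw [pt_re]; linarith
      refine (kap_norm_le 0 _ hpos).trans ?_
      have := mr_pos 0
      gcongr
      linarith
  refine ⟨?_, ?_, ?_, kap_diff 0, ?_, mu0_integrable, mu0_supp, ?_, ?_⟩
  · refine ⟨?_, ?_, ?_, ?_, ?_⟩
    · intro t ht
      show max t 0 / 2 = 0
      rw [max_eq_right ht]; norm_num
    · intro s t hst
      show max s 0 / 2 ≤ max t 0 / 2
      have := max_le_max_right 0 hst
      linarith
    · intro s t
      show max (s + t) 0 / 2 ≤ max s 0 / 2 + max t 0 / 2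
      have : max (s + t) 0 ≤ max s 0 + max t 0 := by
        apply max_le
        · exact add_le_add (le_max_left _ _) (le_max_left _ _)
        · exact add_nonneg (le_max_right _ _) (le_max_right _ _)
      linarith
    · intro t
      show 1 / 2 * t ≤ max t 0 / 2
      have := le_max_left t 0
      linarith
    · intro t ht
      show max t 0 / 2 ≤ t / 2
      rw [max_eq_left ht]
  · rw [hy]; show (1 / 4 : ℝ) < 1 / 2; norm_num
  · exact le_refl (1 / 2 : ℝ)
  · intro z _ _ hz
    refine (kap_norm_le 0 z hz).trans ?_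
    have := mr_pos 0
    gcongr
    linarith
  · intro t ht
    show ‖gf mu0 (yy 0) t‖ ≤ (2 - (1 / 2) ^ 0) * Real.exp (max t 0 / 2)
    unfold gf
    refine (norm_int_le mu0_integrable mu0_supp _ (Real.exp (t / 2)) ?_).trans ?_
    · intro s _
      rw [norm_ex, pt_im, hy]
      apply Real.exp_le_exp.mpr
      linarith
    · rw [mu0_norm, max_eq_left ht]; norm_num
  · intro n τ
    show ‖∫ s, mu0 s * (Af 0 (kap 0) (pt s (yy 0))) ^ (n + 1) * ex (pt s (yy 0)) τ‖ ≤ _
    have e : (fun s => mu0 s * (Af 0 (kap 0) (pt s (yy 0))) ^ (n + 1) * ex (pt s (yy 0)) τ)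
        = fun s => mu0 s * ((Af 0 (kap 0) (pt s (yy 0))) ^ (n + 1) * ex (pt s (yy 0)) τ) := by
      funext s; ring
    rw [e]
    refine (norm_int_le mu0_integrable mu0_supp _
      (1 / 4 * (1 / 2) ^ (n + 1) * Real.exp (yy 0 * max τ 0)) ?_).trans ?_
    · intro s hs
      rw [norm_mul, norm_pow, norm_ex, pt_im]
      have h1 : ‖Af 0 (kap 0) (pt s (yy 0))‖ ^ (n + 1) ≤ (1 / 64) ^ (n + 1) :=
        pow_le_pow_left₀ (norm_nonneg _) (hA s hs) _
      have h2 : (1 / 64 : ℝ) ^ (n + 1) ≤ 1 / 4 * (1 / 2) ^ (n + 1) := by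
        have e1 : (1 / 64 : ℝ) ^ (n + 1) = (1 / 32) ^ (n + 1) * (1 / 2) ^ (n + 1) := by
          rw [← mul_pow]; norm_num
        rw [e1]
        have e2 : (1 / 32 : ℝ) ^ (n + 1) ≤ (1 / 32) ^ 1 :=
          pow_le_pow_of_le_one (by norm_num) (by norm_num) (by omega)
        have e3 : (1 / 32 : ℝ) ^ (n + 1) ≤ 1 / 4 := e2.trans (by norm_num)
        gcongr
      have h3 : Real.exp (τ * yy 0) ≤ Real.exp (yy 0 * max τ 0) := by
        apply Real.exp_le_exp.mpr
        rw [mul_comm]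
        exact mul_le_mul_of_nonneg_left (le_max_left _ _) (yy_pos 0).le
      have h4 : ‖Af 0 (kap 0) (pt s (yy 0))‖ ^ (n + 1) ≤ 1 / 4 * (1 / 2) ^ (n + 1) := h1.trans h2
      gcongr
    · rw [mu0_norm, mul_one]

theorem exists_seq : ∃ S : ℕ → St, S 0 = S0 ∧ (∀ j, Valid j (S j)) ∧
    ∀ j, Rel j (S j) (S (j + 1)) := by
  choose f hf1 hf2 using fun (j : ℕ) (S : {S : St // Valid j S}) => step j S.1 S.2
  let R : (j : ℕ) → {S : St // Valid j S} := fun j =>
    Nat.rec (motive := fun j => {S : St // Valid j S}) ⟨S0, S0_valid⟩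
      (fun j S => ⟨f j S, hf1 j S⟩) j
  refine ⟨fun j => (R j).1, rfl, fun j => (R j).2, fun j => ?_⟩
  exact hf2 j (R j)

end RC
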