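import Mathlib

/-! The weights: one more generator at each level. -/

set_option autoImplicit false

open Filter Topology

noncomputable section

namespace RC

/-- add the generator `T` of cost `Q` -/
def qn (q : ℝ → ℝ) (Q T : ℝ) (t : ℝ) : ℝ := ⨅ k : ℕ, ((k : ℝ) * Q + q (t - k * T))

structure QOK (q : ℝ → ℝ) (σ : ℝ) : Prop where
  zero : ∀ t, t ≤ 0 → q t = 0
  mono : Monotone q
  sub : ∀ s t, q (s + t) ≤ q s + q t
  low : ∀ t, σ * t ≤ q t
  up : ∀ t, 0 ≤ t → q t ≤ t / 2

theorem QOK.nonneg {q : ℝ → ℝ} {σ : ℝ} (h : QOK q σ) (t : ℝ) : 0 ≤ q t := by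
  rcases le_total t 0 with ht | ht
  · rw [h.zero t ht]
  · rw [← h.zero 0 le_rfl]; exact h.mono ht

section
variable {q : ℝ → ℝ} {σ Q T : ℝ}

theorem qn_bdd (h : QOK q σ) (hQ : 0 ≤ Q) (t : ℝ) :
    BddBelow (Set.range fun k : ℕ => ((k : ℝ) * Q + q (t - k * T))) :=
  ⟨0, by rintro _ ⟨k, rfl⟩; have := h.nonneg (t - k * T); positivity⟩

theorem qn_le (h : QOK q σ) (hQ : 0 ≤ Q) (t : ℝ) (k : ℕ) :
    qn q Q T t ≤ (k : ℝ) * Q + q (t - k * T) :=
  ciInf_le (qn_bdd h hQ t) k

theorem le_qn (t c : ℝ) (hc : ∀ k : ℕ, c ≤ (k : ℝ) * Q + q (t - k * T)) : c ≤ qn q Q T t :=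
  le_ciInf hc

theorem qn_le_self (h : QOK q σ) (hQ : 0 ≤ Q) (t : ℝ) : qn q Q T t ≤ q t := by
  simpa using qn_le (T := T) h hQ t 0

theorem qn_T (h : QOK q σ) (hQ : 0 ≤ Q) : qn q Q T T ≤ Q := by
  have := qn_le (T := T) h hQ T 1
  simpa [h.zero 0 le_rfl] using this

theorem qn_ok (h : QOK q σ) (hQ : 0 ≤ Q) (hT : 0 < T) (hσ : Q ≤ σ * T) :
    QOK (qn q Q T) (Q / T) := by
  refine ⟨?_, ?_, ?_, ?_, ?_⟩
  · intro t ht
    apply le_antisymm
    · exact (qn_le_self h hQ t).trans (h.zero t ht).le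
    · exact le_qn t 0 fun k => by have := h.nonneg (t - k * T); positivity
  · intro s t hst
    apply le_qn
    intro k
    refine (qn_le (T := T) h hQ s k).trans ?_
    have := h.mono (by linarith : s - k * T ≤ t - k * T)
    linarith
  · intro s t
    have key : ∀ k l : ℕ, qn q Q T (s + t) ≤ ((k : ℝ) * Q + q (s - k * T))
        + ((l : ℝ) * Q + q (t - l * T)) := by
      intro k l
      refine (qn_le (T := T) h hQ (s + t) (k + l)).trans ?_
      have := h.sub (s - k * T) (t - l * T)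
      have e : s + t - ((k + l : ℕ) : ℝ) * T = (s - k * T) + (t - l * T) := by push_cast; ring
      rw [e]
      push_cast
      linarith
    have h1 : ∀ k : ℕ, qn q Q T (s + t) - ((k : ℝ) * Q + q (s - k * T)) ≤ qn q Q T t := by
      intro k
      apply le_qn
      intro l
      linarith [key k l]
    have h2 : qn q Q T (s + t) - qn q Q T t ≤ qn q Q T s := by
      apply le_qn
      intro k
      linarith [h1 k]
    linarith
  · intro t
    apply le_qn
    intro k
    have hσ' : Q / T ≤ σ := by rw [div_le_iff₀ hT]; exact hσ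
    have e : Q / T * T = Q := by field_simp
    have hs0 : 0 ≤ Q / T := by positivity
    rcases le_total 0 (t - k * T) with h1 | h1
    · have h2 := h.low (t - k * T)
      have h3 : Q / T * (t - k * T) ≤ σ * (t - k * T) := mul_le_mul_of_nonneg_right hσ' h1
      have h4 : (k : ℝ) * Q = Q / T * (k * T) := by rw [← e]; field_simp
      rw [h4]; nlinarith
    · have h2 := h.nonneg (t - k * T)
      have h3 : Q / T * t ≤ Q / T * (k * T) := mul_le_mul_of_nonneg_left (by linarith) hs0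
      have h4 : (k : ℝ) * Q = Q / T * (k * T) := by rw [← e]; field_simp
      linarith
  · intro t ht
    exact (qn_le_self h hQ t).trans (h.up t ht)

/-- the lower bound of the new weight near the multiples of `T` -/
theorem qn_lower (h : QOK q σ) (hQ : 0 ≤ Q) (hT : 0 < T) (hσ0 : 0 ≤ σ) (hσ : 3 * Q ≤ σ * T)
    (k₀ : ℕ) (τ : ℝ) (hτ : -(T / 2) ≤ τ) :
    (k₀ : ℝ) * Q + min (q τ) Q ≤ qn q Q T (k₀ * T + τ) := by
  apply le_qn
  intro k
  have hn := h.nonneg (k₀ * T + τ - k * T)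
  rcases lt_trichotomy k k₀ with hk | hk | hk
  · -- k < k₀
    have hk' : ((k : ℝ)) + 1 ≤ k₀ := by exact_mod_cast hk
    set m : ℝ := (k₀ : ℝ) - k with hm
    have hm1 : 1 ≤ m := by rw [hm]; linarith
    have e : (k₀ : ℝ) * T + τ - k * T = m * T + τ := by rw [hm]; ring
    rw [e]
    have h1 := h.low (m * T + τ)
    rcases le_total τ 0 with h2 | h2
    · have h3 : q τ = 0 := h.zero τ h2
      have h4 : min (q τ) Q ≤ 0 := by rw [h3]; exact min_le_left _ _
      have h5 : σ * ((m - 1 / 2) * T) ≤ σ * (m * T + τ) :=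
        mul_le_mul_of_nonneg_left (by nlinarith) hσ0
      have h6 : (m - 1 / 2) * (3 * Q) ≤ (m - 1 / 2) * (σ * T) :=
        mul_le_mul_of_nonneg_left hσ (by linarith)
      have h7 : (k₀ : ℝ) * Q = k * Q + m * Q := by rw [hm]; ring
      nlinarith
    · have h4 : min (q τ) Q ≤ Q := min_le_right _ _
      have h5 : σ * (m * T) ≤ σ * (m * T + τ) :=
        mul_le_mul_of_nonneg_left (by linarith) hσ0
      have h6 : m * (3 * Q) ≤ m * (σ * T) := mul_le_mul_of_nonneg_left hσ (by linarith)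
      have h7 : (k₀ : ℝ) * Q = k * Q + m * Q := by rw [hm]; ring
      nlinarith
  · subst hk
    have e : (k : ℝ) * T + τ - k * T = τ := by ring
    rw [e]
    linarith [min_le_left (q τ) Q]
  · have hk' : ((k₀ : ℝ)) + 1 ≤ k := by exact_mod_cast hk
    have h4 : min (q τ) Q ≤ Q := min_le_right _ _
    have h5 : ((k₀ : ℝ) + 1) * Q ≤ k * Q := mul_le_mul_of_nonneg_right hk' hQ
    nlinarith

end

end RC
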