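import Pool.Agent.Q85.RC.Step2
import Pool.Agent.Q85.RC.Weight

/-! States of the construction, and the bounds on the symbols. -/

set_option autoImplicit false

open MeasureTheory Set Filter Topology

noncomputable section

namespace RC

/-- rates of decay -/
def MMr (j : ℕ) : ℝ := 1024 ^ j
/-- amplitudes -/
def mr (j : ℕ) : ℝ := 512 ^ j
/-- heights -/
def yy (j : ℕ) : ℝ := (1 / 4) ^ (j + 1)

theorem MMr_pos (j : ℕ) : 0 < MMr j := by unfold MMr; positivity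
theorem mr_pos (j : ℕ) : 0 < mr j := by unfold mr; positivity
theorem yy_pos (j : ℕ) : 0 < yy j := by unfold yy; positivity
theorem MMr_one_le (j : ℕ) : 1 ≤ MMr j := one_le_pow₀ (by norm_num)
theorem MMr_succ (j : ℕ) : MMr (j + 1) = 1024 * MMr j := by unfold MMr; rw [pow_succ]; ring
theorem mr_succ (j : ℕ) : mr (j + 1) = 512 * mr j := by unfold mr; rw [pow_succ]; ring
theorem yy_succ (j : ℕ) : yy (j + 1) = yy j / 4 := by unfold yy; rw [pow_succ]; ring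
theorem yy_le (j : ℕ) : yy j ≤ 1 / 4 := by
  unfold yy
  calc (1 / 4 : ℝ) ^ (j + 1) ≤ (1 / 4) ^ 1 :=
        pow_le_pow_of_le_one (by norm_num) (by norm_num) (by omega)
    _ = 1 / 4 := by norm_num

/-- the symbol `m / (M + iζ)` -/
def kap (j : ℕ) (z : ℂ) : ℂ := (mr j : ℂ) / ((MMr j : ℂ) + Complex.I * z)

/-- division by the next symbol -/
def Af (j : ℕ) (H : ℂ → ℂ) (z : ℂ) : ℂ :=
  H z * ((MMr (j + 1) : ℂ) + Complex.I * z) / (mr (j + 1) : ℂ)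

structure St where
  Q : ℝ
  T : ℝ
  σ : ℝ
  q : ℝ → ℝ
  H : ℂ → ℂ
  μ : ℝ → ℂ

structure Valid (j : ℕ) (S : St) : Prop where
  hq : QOK S.q S.σ
  hσ1 : yy j < S.σ
  hσ2 : S.σ ≤ 1 / 2
  Hd : DifferentiableOn ℂ S.H {z | z.im < 1}
  Hb : ∀ z : ℂ, 0 ≤ z.im → z.im ≤ S.σ → 0 < z.re → ‖S.H z‖ ≤ 2 * mr j / z.re
  μi : Integrable S.μ
  μs : ∀ s, s ∉ Icc (MMr (j + 1)) (MMr (j + 1) + 1) → S.μ s = 0
  G : ∀ t : ℝ, 0 ≤ t → ‖gf S.μ (yy j) t‖ ≤ (2 - (1 / 2) ^ j) * Real.exp (S.q t)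
  P : ∀ n : ℕ, ∀ τ : ℝ,
    ‖∫ s, S.μ s * (Af j S.H (pt s (yy j))) ^ (n + 1) * ex (pt s (yy j)) τ‖
      ≤ 1 / 4 * (1 / 2) ^ (n + 1) * Real.exp (yy j * max τ 0)

structure Rel (j : ℕ) (S S' : St) : Prop where
  q_eq : S'.q = qn S.q S'.Q S'.T
  H_eq : S'.H = fun z => S.H z + Complex.exp (-(S'.Q : ℂ)) * ex z S'.T * kap (j + 1) z
  Q_pos : 0 < S'.Q
  T_ge : (j : ℝ) + 1 ≤ S'.T
  Qm : Real.exp (-S'.Q) * mr (j + 1) ≤ (1 / 4) ^ (j + 1)
  QT : S'.Q ≤ 2 * yy (j + 1) * S'.T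
  close : ∀ t : ℝ, 0 ≤ t → t ≤ (j : ℝ) + 1 →
    ‖gf S'.μ (yy (j + 1)) t - gf S.μ (yy j) t‖ ≤ (1 / 2) ^ (j + 3) * Real.exp (t / 2)
  small : ∀ τ : ℝ, 0 ≤ τ →
    ‖∫ s, S'.μ s * S'.H (pt s (yy (j + 1))) * ex (pt s (yy (j + 1))) τ‖
      ≤ (1 / 2) ^ (j + 1) * Real.exp τ

theorem den_ne (j : ℕ) (z : ℂ) (hz : z.im < 1) : (MMr j : ℂ) + Complex.I * z ≠ 0 := by
  intro h
  have h1 := congrArg Complex.re h
  have h2 := MMr_one_le j
  simp at h1
  linarith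

theorem kap_diff (j : ℕ) : DifferentiableOn ℂ (kap j) {z | z.im < 1} := by
  intro z hz
  unfold kap
  apply DifferentiableAt.differentiableWithinAt
  apply DifferentiableAt.div (by fun_prop) (by fun_prop)
  exact den_ne j z hz

theorem re_le_norm_den (j : ℕ) (z : ℂ) (hz : 0 ≤ z.re) :
    z.re ≤ ‖(MMr j : ℂ) + Complex.I * z‖ := by
  have h := Complex.abs_im_le_norm ((MMr j : ℂ) + Complex.I * z)
  have e : ((MMr j : ℂ) + Complex.I * z).im = z.re := by simp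
  rw [e] at h
  exact (le_abs_self _).trans h

theorem kap_norm_le (j : ℕ) (z : ℂ) (hz : 0 < z.re) : ‖kap j z‖ ≤ mr j / z.re := by
  unfold kap
  rw [norm_div, Complex.norm_real, Real.norm_of_nonneg (mr_pos j).le]
  exact div_le_div_of_nonneg_left (mr_pos j).le hz (re_le_norm_den j z hz.le)

theorem Af_norm_le (j : ℕ) (H : ℂ → ℂ) (z : ℂ) (h0 : 0 ≤ z.im) (h1 : z.im ≤ 1 / 2)
    (h2 : MMr (j + 1) - 1 ≤ z.re) (hH : ‖H z‖ ≤ 2 * mr j / z.re) : ‖Af j H z‖ ≤ 1 / 64 := by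
  have hM : 1024 ≤ MMr (j + 1) := by
    rw [MMr_succ]; nlinarith [MMr_one_le j]
  have hx : 1023 ≤ z.re := by linarith
  have hm := mr_pos j
  have hden : ‖(MMr (j + 1) : ℂ) + Complex.I * z‖ ≤ MMr (j + 1) + (z.re + 1 / 2) := by
    refine (norm_add_le _ _).trans ?_
    rw [norm_mul, Complex.norm_I, one_mul, Complex.norm_real,
      Real.norm_of_nonneg (MMr_pos _).le]
    have := Complex.norm_le_abs_re_add_abs_im z
    rw [abs_of_nonneg (by linarith : (0 : ℝ) ≤ z.re), abs_of_nonneg h0] at this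
    linarith
  unfold Af
  rw [norm_div, norm_mul, Complex.norm_real, Real.norm_of_nonneg (mr_pos _).le,
    div_le_iff₀ (mr_pos _)]
  calc ‖H z‖ * ‖(MMr (j + 1) : ℂ) + Complex.I * z‖
      ≤ (2 * mr j / z.re) * (MMr (j + 1) + (z.re + 1 / 2)) := by gcongr
    _ ≤ (2 * mr j / z.re) * (3 * z.re) := by
        apply mul_le_mul_of_nonneg_left _ (by positivity)
        linarith
    _ = 6 * mr j := by field_simp; ring
    _ ≤ 1 / 64 * mr (j + 1) := by rw [mr_succ]; linarith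

theorem Af_add (j : ℕ) (H : ℂ → ℂ) (z e : ℂ) (hz : z.im < 1) :
    kap (j + 1) z * (Af j H z + e) = H z + e * kap (j + 1) z := by
  have h1 := den_ne (j + 1) z hz
  have h2 : (mr (j + 1) : ℂ) ≠ 0 := by exact_mod_cast (mr_pos _).ne'
  unfold kap Af
  field_simp

theorem Af_mul (j : ℕ) (z e : ℂ) (H' : ℂ → ℂ) (h : H' z = kap j z * e) :
    Af j H' z = Af j (kap j) z * e := by
  unfold Af
  rw [h]; ring

end RC
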