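import Pool.Agent.Q85.RC.Push

/-! Estimates for a density on a horizontal segment as `T → ∞`. -/

set_option autoImplicit false

open MeasureTheory Set Filter Topology

noncomputable section

namespace RC

/-- `e^{-iζt}` -/
def ex (ζ : ℂ) (t : ℝ) : ℂ := Complex.exp (-(Complex.I * (t : ℂ) * ζ))

/-- `e^{-isx}` -/
def osc (s x : ℝ) : ℂ := Complex.exp (-(Complex.I * (s : ℂ) * (x : ℂ)))

theorem norm_ex (ζ : ℂ) (t : ℝ) : ‖ex ζ t‖ = Real.exp (t * ζ.im) := by
  unfold ex
  rw [Complex.norm_exp]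
  congr 1
  simp

theorem norm_osc (s x : ℝ) : ‖osc s x‖ = 1 := by
  unfold osc
  rw [Complex.norm_exp]
  simp

theorem ex_pt (s y t : ℝ) : ex (pt s y) t = (Real.exp (y * t) : ℂ) * osc s t := by
  unfold ex osc pt
  rw [Complex.ofReal_exp, ← Complex.exp_add]
  congr 1
  push_cast
  linear_combination (-(t : ℂ) * y) * Complex.I_sq

theorem ex_add (ζ : ℂ) (s t : ℝ) : ex ζ (s + t) = ex ζ s * ex ζ t := by
  unfold ex
  rw [← Complex.exp_add]
  congr 1
  push_cast; ring

theorem osc_add (s x x' : ℝ) : osc s (x + x') = osc s x * osc s x' := by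
  unfold osc
  rw [← Complex.exp_add]
  congr 1
  push_cast; ring

theorem osc_pow (s x : ℝ) (k : ℕ) : osc s x ^ k = osc s (k * x) := by
  unfold osc
  rw [← Complex.exp_nat_mul]
  congr 1
  push_cast; ring

theorem osc_neg (s x : ℝ) : osc s (-x) * osc s x = 1 := by
  rw [← osc_add]; simp [osc]

theorem continuous_osc (x : ℝ) : Continuous fun s : ℝ => osc s x := by
  unfold osc; fun_prop

theorem continuous_osc' (s : ℝ) : Continuous fun x : ℝ => osc s x := by
  unfold osc; fun_prop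

theorem continuous_ex (t : ℝ) : Continuous fun z : ℂ => ex z t := by
  unfold ex; fun_prop

theorem differentiable_ex (t : ℝ) : Differentiable ℂ fun z : ℂ => ex z t := by
  unfold ex; fun_prop

theorem continuous_ex_right (z : ℂ) : Continuous fun t : ℝ => ex z t := by
  unfold ex; fun_prop

/-- the Fourier integral -/
def FT (F : ℝ → ℂ) (x : ℝ) : ℂ := ∫ s, F s * osc s x

/-- Riemann-Lebesgue -/
theorem rl (F : ℝ → ℂ) (ε : ℝ) (hε : 0 < ε) :
    ∀ᶠ T : ℝ in atTop, ∀ x : ℝ, T ≤ |x| → ‖FT F x‖ ≤ ε := by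
  have h := Real.tendsto_integral_exp_smul_cocompact F
  have h2 : Tendsto (fun x : ℝ => FT F x) (cocompact ℝ) (𝓝 0) := by
    have hc : Tendsto (fun x : ℝ => x / (2 * Real.pi)) (cocompact ℝ) (cocompact ℝ) := by
      have hne : (2 * Real.pi)⁻¹ ≠ 0 := by positivity
      have := (Homeomorph.mulRight₀ ((2 * Real.pi)⁻¹) hne).isClosedEmbedding.tendsto_cocompact
      simpa [div_eq_mul_inv] using this
    refine (h.comp hc).congr fun x => ?_
    simp only [Function.comp, FT]
    congr 1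
    funext s
    rw [Circle.smul_def, smul_eq_mul, mul_comm, Real.fourierChar_apply]
    congr 1
    unfold osc
    congr 1
    push_cast
    have hpi : (Real.pi : ℂ) ≠ 0 := by exact_mod_cast Real.pi_ne_zero
    field_simp
  have h3 := (Metric.tendsto_nhds.mp h2) ε hε
  rw [_root_.cocompact_eq_atBot_atTop, eventually_sup] at h3
  obtain ⟨h4, h5⟩ := h3
  obtain ⟨a, ha⟩ := eventually_atBot.mp h4
  obtain ⟨b, hb⟩ := eventually_atTop.mp h5
  filter_upwards [eventually_ge_atTop (max b (-a))] with T hT x hx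
  rcases le_abs'.mp hx with h6 | h6
  · have : x ≤ a := by linarith [le_max_right b (-a)]
    have := ha x this
    rw [dist_zero_right] at this
    exact this.le
  · have : b ≤ x := by linarith [le_max_left b (-a)]
    have := hb x this
    rw [dist_zero_right] at this
    exact this.le

section
variable {ρ : ℝ → ℂ} (hρ : Integrable ρ) {a : ℝ} (hρs : ∀ s, s ∉ Icc a (a + 1) → ρ s = 0)
include hρ hρs

theorem int_mul (g : ℝ → ℂ) (hg : AEStronglyMeasurable g volume) (C : ℝ)
    (hb : ∀ s ∈ Icc a (a + 1), ‖g s‖ ≤ C) : Integrable fun s => ρ s * g s := by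
  refine Integrable.mono' (g := fun s => C * ‖ρ s‖) (hρ.norm.const_mul C)
    (hρ.aestronglyMeasurable.mul hg) (ae_of_all _ fun s => ?_)
  by_cases hs : s ∈ Icc a (a + 1)
  · rw [norm_mul, mul_comm]; exact mul_le_mul_of_nonneg_right (hb s hs) (norm_nonneg _)
  · rw [hρs s hs]; simp

theorem norm_int_le (g : ℝ → ℂ) (C : ℝ)
    (hb : ∀ s ∈ Icc a (a + 1), ‖g s‖ ≤ C) : ‖∫ s, ρ s * g s‖ ≤ C * ∫ s, ‖ρ s‖ := by
  rw [← integral_const_mul]
  refine norm_integral_le_of_norm_le (hρ.norm.const_mul C) (ae_of_all _ fun s => ?_)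
  by_cases hs : s ∈ Icc a (a + 1)
  · rw [norm_mul, mul_comm]; exact mul_le_mul_of_nonneg_right (hb s hs) (norm_nonneg _)
  · rw [hρs s hs]; simp

end

/-- the ratio `w` -/
def ww (A : ℂ → ℂ) (y T s : ℝ) : ℂ := 2 * osc s (-T) * A (pt s y)

/-- the new density -/
def mun (ρ : ℝ → ℂ) (A : ℂ → ℂ) (y T : ℝ) (s : ℝ) : ℂ := ρ s * (1 + ww A y T s)⁻¹

/-- the function represented by a density -/
def gf (μ : ℝ → ℂ) (y t : ℝ) : ℂ := ∫ s, μ s * ex (pt s y) t

/-- Fourier integral of `ρ A^k` -/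
def Zk (ρ : ℝ → ℂ) (A : ℂ → ℂ) (y : ℝ) (k : ℕ) (x : ℝ) : ℂ :=
  FT (fun s => ρ s * A (pt s y) ^ k) x

theorem norm_ww_le (A : ℂ → ℂ) (y T s : ℝ) (h : ‖A (pt s y)‖ ≤ 1 / 64) :
    ‖ww A y T s‖ ≤ 1 / 32 := by
  unfold ww
  rw [norm_mul, norm_mul, norm_osc]
  simp only [Complex.norm_ofNat, mul_one]
  linarith

theorem one_add_ww_ne (A : ℂ → ℂ) (y T s : ℝ) (h : ‖A (pt s y)‖ ≤ 1 / 64) :
    31 / 32 ≤ ‖1 + ww A y T s‖ := by
  have h1 := norm_ww_le A y T s h
  have h2 : ‖(1 : ℂ)‖ ≤ ‖1 + ww A y T s‖ + ‖ww A y T s‖ := by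
    calc ‖(1 : ℂ)‖ = ‖(1 + ww A y T s) - ww A y T s‖ := by congr 1; ring
      _ ≤ _ := norm_sub_le _ _
  rw [norm_one] at h2
  linarith

theorem inv_expand (w : ℂ) (hw : 1 + w ≠ 0) (N : ℕ) :
    (1 + w)⁻¹ = ∑ j ∈ Finset.range N, (-w) ^ j + (-w) ^ N * (1 + w)⁻¹ := by
  have h := mul_neg_geom_sum (-w) N
  have h1 : (1 + w) * ∑ j ∈ Finset.range N, (-w) ^ j = 1 - (-w) ^ N := by
    rw [← h]; ring
  field_simp
  linear_combination (-1 : ℂ) * h1

section
variable {ρ : ℝ → ℂ} (hρ : Integrable ρ) {a : ℝ} (hρs : ∀ s, s ∉ Icc a (a + 1) → ρ s = 0)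
  {y : ℝ} {A : ℂ → ℂ} (hAc : Continuous fun s => A (pt s y))
  (hA : ∀ s ∈ Icc a (a + 1), ‖A (pt s y)‖ ≤ 1 / 64)

include hAc in
theorem ww_cont (T : ℝ) : Continuous fun s => ww A y T s := by
  unfold ww
  exact ((continuous_const.mul (continuous_osc (-T))).mul hAc)

include hAc in
theorem inv_meas (T : ℝ) :
    AEStronglyMeasurable (fun s => (1 + ww A y T s)⁻¹) volume := by
  have h : Measurable fun s => (1 + ww A y T s) :=
    (continuous_const.add (ww_cont hAc T)).measurable
  exact h.inv.aestronglyMeasurable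

omit hρ hρs in
theorem term_pt (ρ : ℝ → ℂ) (A : ℂ → ℂ) (y T t s : ℝ) (j : ℕ) :
    ρ s * (-ww A y T s) ^ j * ex (pt s y) t
      = (-2) ^ j * (Real.exp (y * t) : ℂ) * (ρ s * A (pt s y) ^ j * osc s (t - j * T)) := by
  have e1 : osc s (-T) ^ j * osc s t = osc s (t - j * T) := by
    rw [osc_pow, ← osc_add]; congr 1; ring
  rw [ex_pt, ← e1]
  unfold ww
  rw [neg_pow, mul_pow, mul_pow, neg_pow (2 : ℂ)]
  ring

theorem term_eq (T t : ℝ) (j : ℕ) :
    ∫ s, ρ s * (-ww A y T s) ^ j * ex (pt s y) t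
      = (-2) ^ j * (Real.exp (y * t) : ℂ) * Zk ρ A y j (t - j * T) := by
  unfold Zk FT
  rw [← integral_const_mul]
  congr 1
  funext s
  rw [term_pt]

include hρ hρs hA in
theorem Zk_norm_le (j : ℕ) (x : ℝ) : ‖Zk ρ A y j x‖ ≤ (1 / 64) ^ j * ∫ s, ‖ρ s‖ := by
  unfold Zk FT
  have e : (fun s => ρ s * A (pt s y) ^ j * osc s x)
      = fun s => ρ s * (A (pt s y) ^ j * osc s x) := by funext s; ring
  rw [e]
  apply norm_int_le hρ hρs
  intro s hs
  rw [norm_mul, norm_osc, mul_one, norm_pow]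
  exact pow_le_pow_left₀ (norm_nonneg _) (hA s hs) j

include hρ hρs hAc hA in
theorem near (δ : ℝ) (hδ : 0 < δ) : ∀ᶠ T : ℝ in atTop, ∀ t : ℝ, ∀ k : ℕ,
    |t - k * T| ≤ T / 2 →
    ‖gf (mun ρ A y T) y t - (-2) ^ k * (Real.exp (y * t) : ℂ) * Zk ρ A y k (t - k * T)‖
      ≤ δ * Real.exp (y * t) := by
  set C : ℝ := ∫ s, ‖ρ s‖ with hC
  have hC0 : 0 ≤ C := integral_nonneg fun s => norm_nonneg _
  obtain ⟨N, hN⟩ : ∃ N : ℕ, 2 * C * (1 / 32 : ℝ) ^ N ≤ δ / 4 := by
    have h : Tendsto (fun N : ℕ => 2 * C * (1 / 32 : ℝ) ^ N) atTop (𝓝 (2 * C * 0)) :=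
      (tendsto_pow_atTop_nhds_zero_of_lt_one (by norm_num) (by norm_num)).const_mul _
    rw [mul_zero] at h
    have := (h.eventually_le_const (by positivity : (0 : ℝ) < δ / 4)).exists
    exact this
  have hRL : ∀ᶠ T : ℝ in atTop, ∀ j ∈ Finset.range N, ∀ x : ℝ, T / 2 ≤ |x| →
      ‖Zk ρ A y j x‖ ≤ δ / (4 * (N + 1) * 2 ^ j) := by
    rw [eventually_all_finset]
    intro j _
    have h := rl (fun s => ρ s * A (pt s y) ^ j) (δ / (4 * (N + 1) * 2 ^ j)) (by positivity)
    have ht : Tendsto (fun T : ℝ => T / 2) atTop atTop :=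
      tendsto_id.atTop_div_const (by norm_num)
    exact ht.eventually h
  filter_upwards [hRL, eventually_gt_atTop 0] with T hT hT0 t k hk
  set E : ℝ := Real.exp (y * t) with hE
  have hE0 : 0 < E := Real.exp_pos _
  set term : ℕ → ℂ := fun j => (-2) ^ j * (E : ℂ) * Zk ρ A y j (t - j * T) with hterm
  have hterm_norm : ∀ j, ‖term j‖ = 2 ^ j * E * ‖Zk ρ A y j (t - j * T)‖ := by
    intro j
    simp only [hterm, norm_mul, norm_pow, norm_neg, Complex.norm_ofNat, Complex.norm_real,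
      Real.norm_of_nonneg hE0.le]
  -- expansion
  have hex : ∀ s, ‖ex (pt s y) t‖ = E := by
    intro s; rw [norm_ex, pt_im, hE, mul_comm]
  have hI : ∀ j, Integrable fun s => ρ s * (-ww A y T s) ^ j * ex (pt s y) t := by
    intro j
    have e : (fun s => ρ s * (-ww A y T s) ^ j * ex (pt s y) t)
        = fun s => ρ s * ((-ww A y T s) ^ j * ex (pt s y) t) := by funext s; ring
    rw [e]
    apply int_mul hρ hρs _ ?_ ((1 / 32) ^ j * E)
    · intro s hs
      rw [norm_mul, hex, norm_pow, norm_neg]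
      have := norm_ww_le A y T s (hA s hs)
      gcongr
    · exact (((ww_cont hAc T).neg.pow j).mul
        ((continuous_ex t).comp (continuous_pt y))).aestronglyMeasurable
  have hR : Integrable fun s => ρ s * ((-ww A y T s) ^ N * (1 + ww A y T s)⁻¹ * ex (pt s y) t) := by
    apply int_mul hρ hρs _ ?_ ((1 / 32) ^ N * 2 * E)
    · intro s hs
      rw [norm_mul, hex, norm_mul, norm_pow, norm_neg, norm_inv]
      have h1 := norm_ww_le A y T s (hA s hs)
      have h2 := one_add_ww_ne A y T s (hA s hs)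
      have h3 : ‖1 + ww A y T s‖⁻¹ ≤ 2 := by
        rw [inv_le_comm₀ (by linarith) (by norm_num)]; linarith
      gcongr
    · exact ((((ww_cont hAc T).neg.pow N).aestronglyMeasurable.mul (inv_meas hAc T)).mul
        ((continuous_ex t).comp (continuous_pt y)).aestronglyMeasurable)
  have hexp : gf (mun ρ A y T) y t = ∑ j ∈ Finset.range N, term j
      + ∫ s, ρ s * ((-ww A y T s) ^ N * (1 + ww A y T s)⁻¹ * ex (pt s y) t) := by
    have e1 : ∀ j, term j = ∫ s, ρ s * (-ww A y T s) ^ j * ex (pt s y) t := by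
      intro j; rw [term_eq]
    have e2 : ∑ j ∈ Finset.range N, term j
        = ∫ s, ∑ j ∈ Finset.range N, ρ s * (-ww A y T s) ^ j * ex (pt s y) t := by
      rw [integral_finsetSum _ fun j _ => hI j]
      exact Finset.sum_congr rfl fun j _ => e1 j
    rw [e2, ← integral_add (integrable_finsetSum _ fun j _ => hI j) hR]
    unfold gf mun
    congr 1
    funext s
    by_cases hs : s ∈ Icc a (a + 1)
    · have h2 := one_add_ww_ne A y T s (hA s hs)
      have h3 : 1 + ww A y T s ≠ 0 := by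
        intro h; rw [h, norm_zero] at h2; linarith
      have h4 := inv_expand (ww A y T s) h3 N
      rw [← Finset.sum_mul, ← Finset.mul_sum]
      linear_combination (ρ s * ex (pt s y) t) * h4
    · rw [hρs s hs]; simp
  have hRn : ‖∫ s, ρ s * ((-ww A y T s) ^ N * (1 + ww A y T s)⁻¹ * ex (pt s y) t)‖
      ≤ δ / 4 * E := by
    refine (norm_int_le hρ hρs _ ((1 / 32) ^ N * 2 * E) ?_).trans ?_
    · intro s hs
      rw [norm_mul, hex, norm_mul, norm_pow, norm_neg, norm_inv]
      have h1 := norm_ww_le A y T s (hA s hs)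
      have h2 := one_add_ww_ne A y T s (hA s hs)
      have h3 : ‖1 + ww A y T s‖⁻¹ ≤ 2 := by
        rw [inv_le_comm₀ (by linarith) (by norm_num)]; linarith
      gcongr
    · rw [← hC]
      calc (1 / 32 : ℝ) ^ N * 2 * E * C = (2 * C * (1 / 32) ^ N) * E := by ring
        _ ≤ δ / 4 * E := by gcongr
  -- far terms
  have hfar : ∀ j ∈ Finset.range N, j ≠ k → ‖term j‖ ≤ δ / (4 * (N + 1)) * E := by
    intro j hj hjk
    have hdist : T / 2 ≤ |t - j * T| := by
      have h1 : (1 : ℝ) ≤ |((j : ℝ) - k)| := by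
        have : (1 : ℤ) ≤ |(j : ℤ) - k| := by
          apply Int.one_le_abs
          intro h; apply hjk; omega
        exact_mod_cast this
      have h2 : |((j : ℝ) - k) * T| = |((j : ℝ) - k)| * T := by rw [abs_mul, abs_of_pos hT0]
      have h3 : |((j : ℝ) - k) * T| ≤ |t - k * T| + |t - j * T| := by
        have : ((j : ℝ) - k) * T = (t - k * T) - (t - j * T) := by ring
        rw [this]; exact abs_sub _ _
      nlinarith
    rw [hterm_norm]
    have := hT j hj _ hdist
    calc 2 ^ j * E * ‖Zk ρ A y j (t - j * T)‖ ≤ 2 ^ j * E * (δ / (4 * (N + 1) * 2 ^ j)) := by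
          gcongr
      _ = δ / (4 * (N + 1)) * E := by field_simp
  have hsum : ‖(∑ j ∈ Finset.range N, term j) - term k‖ ≤ 2 * (δ / 4) * E := by
    by_cases hkN : k ∈ Finset.range N
    · rw [← Finset.add_sum_erase _ _ hkN, add_sub_cancel_left]
      refine (norm_sum_le _ _).trans ?_
      calc ∑ j ∈ (Finset.range N).erase k, ‖term j‖
          ≤ ∑ _j ∈ (Finset.range N).erase k, δ / (4 * (N + 1)) * E :=
            Finset.sum_le_sum fun j hj =>
              hfar j (Finset.mem_of_mem_erase hj) (Finset.ne_of_mem_erase hj)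
        _ = ((Finset.range N).erase k).card * (δ / (4 * (N + 1)) * E) := by
            rw [Finset.sum_const, nsmul_eq_mul]
        _ ≤ (N + 1 : ℝ) * (δ / (4 * (N + 1)) * E) := by
            have : (((Finset.range N).erase k).card : ℝ) ≤ N := by
              have := Finset.card_erase_le (s := Finset.range N) (a := k)
              rw [Finset.card_range] at this
              exact_mod_cast this
            gcongr
            linarith
        _ = δ / 4 * E := by field_simp
        _ ≤ 2 * (δ / 4) * E := by nlinarith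
    · have hkN' : N ≤ k := by simpa using hkN
      have h1 : ‖∑ j ∈ Finset.range N, term j‖ ≤ δ / 4 * E := by
        refine (norm_sum_le _ _).trans ?_
        calc ∑ j ∈ Finset.range N, ‖term j‖
            ≤ ∑ _j ∈ Finset.range N, δ / (4 * (N + 1)) * E :=
              Finset.sum_le_sum fun j hj => hfar j hj (by
                intro h; rw [Finset.mem_range] at hj; omega)
          _ = N * (δ / (4 * (N + 1)) * E) := by
              rw [Finset.sum_const, nsmul_eq_mul, Finset.card_range]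
          _ ≤ (N + 1 : ℝ) * (δ / (4 * (N + 1)) * E) := by
              gcongr
              linarith
          _ = δ / 4 * E := by field_simp
      have h2 : ‖term k‖ ≤ δ / 4 * E := by
        rw [hterm_norm]
        calc 2 ^ k * E * ‖Zk ρ A y k (t - k * T)‖
            ≤ 2 ^ k * E * ((1 / 64) ^ k * C) := by
              gcongr; exact Zk_norm_le hρ hρs hA k _
          _ = (C * (1 / 32) ^ k) * E := by
              rw [show (1 / 64 : ℝ) = 1 / 32 / 2 by norm_num, div_pow]
              field_simp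
          _ ≤ (2 * C * (1 / 32) ^ N) * E := by
              have : (1 / 32 : ℝ) ^ k ≤ (1 / 32) ^ N :=
                pow_le_pow_of_le_one (by norm_num) (by norm_num) hkN'
              have h3 : 0 ≤ (1 / 32 : ℝ) ^ N := by positivity
              gcongr
              linarith
          _ ≤ δ / 4 * E := by gcongr
      calc ‖(∑ j ∈ Finset.range N, term j) - term k‖
          ≤ ‖∑ j ∈ Finset.range N, term j‖ + ‖term k‖ := norm_sub_le _ _
        _ ≤ δ / 4 * E + δ / 4 * E := add_le_add h1 h2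
        _ = 2 * (δ / 4) * E := by ring
  have hfin : gf (mun ρ A y T) y t - term k
      = ((∑ j ∈ Finset.range N, term j) - term k)
        + ∫ s, ρ s * ((-ww A y T s) ^ N * (1 + ww A y T s)⁻¹ * ex (pt s y) t) := by
    rw [hexp]; ring
  have : ‖gf (mun ρ A y T) y t - term k‖ ≤ δ * E := by
    rw [hfin]
    calc _ ≤ 2 * (δ / 4) * E + δ / 4 * E := (norm_add_le _ _).trans (add_le_add hsum hRn)
      _ ≤ δ * E := by nlinarith
  exact this

end

end RC
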