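import Pool.Agent.Q85.RC.Step1

/-! The powers of the next symbol, and the error of the new equation. -/

set_option autoImplicit false

open MeasureTheory Set Filter Topology

noncomputable section

namespace RC

/-- the value of `exp(-Q-iTζ)` on the line -/
def EE (T s : ℝ) : ℂ := 1 / 2 * osc s T

theorem norm_EE (T s : ℝ) : ‖EE T s‖ = 1 / 2 := by
  unfold EE; rw [norm_mul, norm_osc]; norm_num

theorem EE_ww (A : ℂ → ℂ) (y T s : ℝ) : EE T s * (1 + ww A y T s) = A (pt s y) + EE T s := by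
  unfold EE ww
  have h := osc_neg s T
  linear_combination (A (pt s y)) * h

theorem continuous_EE (T : ℝ) : Continuous fun s => EE T s :=
  continuous_const.mul (continuous_osc T)

section
variable {ρ : ℝ → ℂ} (hρ : Integrable ρ) {a : ℝ} (hρs : ∀ s, s ∉ Icc a (a + 1) → ρ s = 0)
  {y : ℝ} {A : ℂ → ℂ} (hAc : Continuous fun s => A (pt s y))
  (hA : ∀ s ∈ Icc a (a + 1), ‖A (pt s y)‖ ≤ 1 / 64)

include hρs hA in
theorem mun_mul (T s : ℝ) : mun ρ A y T s * (A (pt s y) + EE T s) = ρ s * EE T s := by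
  unfold mun
  by_cases hs : s ∈ Icc a (a + 1)
  · have h2 := one_add_ww_ne A y T s (hA s hs)
    have h3 : 1 + ww A y T s ≠ 0 := by
      intro h; rw [h, norm_zero] at h2; linarith
    rw [← EE_ww]
    field_simp
  · rw [hρs s hs]; simp

include hρ hρs hAc hA in
theorem mun_integrable (T : ℝ) : Integrable (mun ρ A y T) := by
  unfold mun
  apply int_mul hρ hρs _ (inv_meas hAc T) 2
  intro s hs
  have h2 := one_add_ww_ne A y T s (hA s hs)
  rw [norm_inv, inv_le_comm₀ (by linarith) (by norm_num)]; linarith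

include hρs in
theorem mun_supp (T s : ℝ) (hs : s ∉ Icc a (a + 1)) : mun ρ A y T s = 0 := by
  unfold mun; rw [hρs s hs, zero_mul]

include hρs hA in
theorem err (κ : ℂ → ℂ) (ε : ℝ)
    (hε : 0 < ε) : ∀ᶠ T : ℝ in atTop, ∀ τ : ℝ, 0 ≤ τ →
      ‖∫ s, mun ρ A y T s * (κ (pt s y) * (A (pt s y) + EE T s)) * ex (pt s y) τ‖
        ≤ ε * Real.exp (y * τ) := by
  have h := rl (fun s => ρ s * κ (pt s y)) ε hε
  filter_upwards [h, eventually_gt_atTop 0] with T hT hT0 τ hτ
  have e : (fun s => mun ρ A y T s * (κ (pt s y) * (A (pt s y) + EE T s)) * ex (pt s y) τ)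
      = fun s => (1 / 2 * (Real.exp (y * τ) : ℂ)) * (ρ s * κ (pt s y) * osc s (T + τ)) := by
    funext s
    have h1 := mun_mul hρs hA T s
    rw [ex_pt, osc_add]
    calc mun ρ A y T s * (κ (pt s y) * (A (pt s y) + EE T s)) * (↑(Real.exp (y * τ)) * osc s τ)
        = (mun ρ A y T s * (A (pt s y) + EE T s)) * (κ (pt s y) * (↑(Real.exp (y * τ)) * osc s τ)) := by
          ring
      _ = _ := by rw [h1]; unfold EE; ring
  rw [e, integral_const_mul, norm_mul, norm_mul]
  have h1 := hT (T + τ) (by rw [abs_of_nonneg (by linarith)]; linarith)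
  unfold FT at h1
  rw [Complex.norm_real, Real.norm_of_nonneg (Real.exp_pos _).le]
  have h2 : ‖(1 / 2 : ℂ)‖ ≤ 1 := by norm_num
  calc ‖(1 / 2 : ℂ)‖ * Real.exp (y * τ) * ‖∫ s, ρ s * κ (pt s y) * osc s (T + τ)‖
      ≤ 1 * Real.exp (y * τ) * ε := by gcongr
    _ = ε * Real.exp (y * τ) := by ring

include hρs hA in
/-- the integrand of `X_{n+1}` -/
theorem X_pt (r : ℂ → ℂ) (T τ s : ℝ) (n : ℕ) :
    mun ρ A y T s * (r (pt s y) * (A (pt s y) + EE T s)) ^ (n + 1) * ex (pt s y) τ
      = ρ s * (EE T s * r (pt s y) * (r (pt s y) * (A (pt s y) + EE T s)) ^ n * ex (pt s y) τ) := by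
  have h1 := mun_mul hρs hA T s
  calc _ = (mun ρ A y T s * (A (pt s y) + EE T s)) * (r (pt s y)
        * (r (pt s y) * (A (pt s y) + EE T s)) ^ n * ex (pt s y) τ) := by ring
    _ = _ := by rw [h1]; ring

include hρ hρs hAc hA in
theorem powers (hy : 0 < y) (r : ℂ → ℂ) (hrc : Continuous fun s => r (pt s y))
    (hr : ∀ s ∈ Icc a (a + 1), ‖r (pt s y)‖ ≤ 1 / 64) (ε : ℝ)
    (hε : 0 < ε) : ∀ᶠ T : ℝ in atTop, ∀ n : ℕ, ∀ τ : ℝ,
      ‖∫ s, mun ρ A y T s * (r (pt s y) * (A (pt s y) + EE T s)) ^ (n + 1) * ex (pt s y) τ‖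
        ≤ ε * (1 / 2) ^ (n + 1) * Real.exp (y * max τ 0) := by
  set C : ℝ := ∫ s, ‖ρ s‖ with hC
  have hC0 : 0 ≤ C := integral_nonneg fun s => norm_nonneg _
  obtain ⟨K, hK⟩ : ∃ K : ℕ, C * (1 / 32 : ℝ) ^ K ≤ ε := by
    have h : Tendsto (fun N : ℕ => C * (1 / 32 : ℝ) ^ N) atTop (𝓝 (C * 0)) :=
      (tendsto_pow_atTop_nhds_zero_of_lt_one (by norm_num) (by norm_num)).const_mul _
    rw [mul_zero] at h
    exact (h.eventually_le_const hε).exists
  have hRL : ∀ᶠ T : ℝ in atTop, ∀ n ∈ Finset.range K, ∀ m ∈ Finset.range (n + 1), ∀ x : ℝ,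
      T / 2 ≤ |x| →
      ‖FT (fun s => ρ s * (r (pt s y) ^ (n + 1) * A (pt s y) ^ (n - m))) x‖
        ≤ ε * (1 / 2) ^ (n + 1) / 2 ^ n := by
    rw [eventually_all_finset]
    intro n _
    rw [eventually_all_finset]
    intro m _
    have h := rl (fun s => ρ s * (r (pt s y) ^ (n + 1) * A (pt s y) ^ (n - m)))
      (ε * (1 / 2) ^ (n + 1) / 2 ^ n) (by positivity)
    have ht : Tendsto (fun T : ℝ => T / 2) atTop atTop :=
      tendsto_id.atTop_div_const (by norm_num)
    exact ht.eventually h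
  have hexp : ∀ᶠ T : ℝ in atTop, C * Real.exp (-(y * T / 2)) ≤ ε := by
    have h1 : Tendsto (fun T : ℝ => -(y * T / 2)) atTop atBot := by
      apply tendsto_neg_atTop_atBot.comp
      exact (tendsto_id.const_mul_atTop hy).atTop_div_const (by norm_num)
    have h2 := (Real.tendsto_exp_atBot.comp h1).const_mul C
    rw [mul_zero] at h2
    exact h2.eventually_le_const hε
  filter_upwards [hRL, hexp, eventually_gt_atTop 0] with T hT hTe hT0 n τ
  have habs : ‖∫ s, mun ρ A y T s * (r (pt s y) * (A (pt s y) + EE T s)) ^ (n + 1) * ex (pt s y) τ‖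
      ≤ (1 / 64) ^ (n + 1) * Real.exp (y * τ) * C := by
    have e : (fun s => mun ρ A y T s * (r (pt s y) * (A (pt s y) + EE T s)) ^ (n + 1)
          * ex (pt s y) τ)
        = fun s => ρ s * (EE T s * r (pt s y) * (r (pt s y) * (A (pt s y) + EE T s)) ^ n
          * ex (pt s y) τ) := by
      funext s; exact X_pt hρs hA r T τ s n
    rw [e]
    apply norm_int_le hρ hρs
    intro s hs
    rw [norm_mul, norm_mul, norm_mul, norm_EE, norm_pow, norm_mul, norm_ex, pt_im]
    have h1 : ‖A (pt s y) + EE T s‖ ≤ 1 := by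
      calc _ ≤ ‖A (pt s y)‖ + ‖EE T s‖ := norm_add_le _ _
        _ ≤ 1 / 64 + 1 / 2 := add_le_add (hA s hs) (norm_EE T s).le
        _ ≤ 1 := by norm_num
    have h2 := hr s hs
    have h3 : ‖r (pt s y)‖ * ‖A (pt s y) + EE T s‖ ≤ 1 / 64 := by
      calc ‖r (pt s y)‖ * ‖A (pt s y) + EE T s‖ ≤ 1 / 64 * 1 := by gcongr
        _ = 1 / 64 := by norm_num
    calc 1 / 2 * ‖r (pt s y)‖ * (‖r (pt s y)‖ * ‖A (pt s y) + EE T s‖) ^ n * Real.exp (τ * y)
        ≤ 1 / 2 * (1 / 64) * (1 / 64) ^ n * Real.exp (τ * y) := by gcongr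
      _ ≤ (1 / 64) ^ (n + 1) * Real.exp (y * τ) := by
          rw [mul_comm τ y, pow_succ]
          have : 0 ≤ (1 / 64 : ℝ) ^ n * Real.exp (y * τ) := by positivity
          nlinarith
  have hmax : Real.exp (y * τ) ≤ Real.exp (y * max τ 0) := by
    apply Real.exp_le_exp.mpr
    exact mul_le_mul_of_nonneg_left (le_max_left _ _) hy.le
  by_cases hn : K ≤ n + 1
  · refine habs.trans ?_
    have h1 : C * (1 / 32 : ℝ) ^ (n + 1) ≤ ε := by
      refine le_trans ?_ hK
      exact mul_le_mul_of_nonneg_left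
        (pow_le_pow_of_le_one (by norm_num) (by norm_num) hn) hC0
    have e2 : (1 / 64 : ℝ) ^ (n + 1) = (1 / 32) ^ (n + 1) * (1 / 2) ^ (n + 1) := by
      rw [← mul_pow]; norm_num
    calc (1 / 64 : ℝ) ^ (n + 1) * Real.exp (y * τ) * C
        = (C * (1 / 32) ^ (n + 1)) * (1 / 2) ^ (n + 1) * Real.exp (y * τ) := by rw [e2]; ring
      _ ≤ ε * (1 / 2) ^ (n + 1) * Real.exp (y * max τ 0) := by gcongr
  · rcases le_total τ (-(T / 2)) with hτ | hτ
    · refine habs.trans ?_
      have h1 : Real.exp (y * τ) ≤ Real.exp (-(y * T / 2)) := by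
        apply Real.exp_le_exp.mpr
        have := mul_le_mul_of_nonneg_left hτ hy.le
        linarith
      have h2 : (1 / 64 : ℝ) ^ (n + 1) ≤ (1 / 2) ^ (n + 1) :=
        pow_le_pow_left₀ (by norm_num) (by norm_num) _
      have h3 : (1 : ℝ) ≤ Real.exp (y * max τ 0) := by
        apply Real.one_le_exp
        exact mul_nonneg hy.le (le_max_right _ _)
      calc (1 / 64 : ℝ) ^ (n + 1) * Real.exp (y * τ) * C
          ≤ (1 / 2) ^ (n + 1) * Real.exp (-(y * T / 2)) * C := by gcongr
        _ = (C * Real.exp (-(y * T / 2))) * (1 / 2) ^ (n + 1) := by ring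
        _ ≤ ε * (1 / 2) ^ (n + 1) * 1 := by rw [mul_one]; gcongr
        _ ≤ ε * (1 / 2) ^ (n + 1) * Real.exp (y * max τ 0) := by gcongr
    · -- oscillation
      have hnK : n ∈ Finset.range K := by
        rw [Finset.mem_range]; omega
      set Yc : ℕ → ℂ := fun m =>
        FT (fun s => ρ s * (r (pt s y) ^ (n + 1) * A (pt s y) ^ (n - m))) (((m : ℝ) + 1) * T + τ)
        with hYc
      have hYb : ∀ m ∈ Finset.range (n + 1), ‖Yc m‖ ≤ ε * (1 / 2) ^ (n + 1) / 2 ^ n := by
        intro m hm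
        apply hT n hnK m hm
        have hm0 : (0 : ℝ) ≤ m := Nat.cast_nonneg m
        rw [abs_of_nonneg (by nlinarith)]
        nlinarith
      have hmain : ∫ s, mun ρ A y T s * (r (pt s y) * (A (pt s y) + EE T s)) ^ (n + 1)
            * ex (pt s y) τ
          = ∑ m ∈ Finset.range (n + 1),
            ((n.choose m : ℂ) * (1 / 2) ^ (m + 1) * (Real.exp (y * τ) : ℂ)) * Yc m := by
        have hint : ∀ m ∈ Finset.range (n + 1), Integrable fun s =>
            ((n.choose m : ℂ) * (1 / 2) ^ (m + 1) * (Real.exp (y * τ) : ℂ)) *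
              (ρ s * (r (pt s y) ^ (n + 1) * A (pt s y) ^ (n - m))
                * osc s (((m : ℝ) + 1) * T + τ)) := by
          intro m _
          apply Integrable.const_mul
          have e : (fun s => ρ s * (r (pt s y) ^ (n + 1) * A (pt s y) ^ (n - m))
                * osc s (((m : ℝ) + 1) * T + τ))
              = fun s => ρ s * ((r (pt s y) ^ (n + 1) * A (pt s y) ^ (n - m))
                * osc s (((m : ℝ) + 1) * T + τ)) := by funext s; ring
          rw [e]
          apply int_mul hρ hρs _ ?_ 1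
          · intro s hs
            rw [norm_mul, norm_osc, norm_mul, norm_pow, norm_pow, mul_one]
            have h1 : ‖r (pt s y)‖ ^ (n + 1) ≤ 1 :=
              pow_le_one₀ (norm_nonneg _) ((hr s hs).trans (by norm_num))
            have h2 : ‖A (pt s y)‖ ^ (n - m) ≤ 1 :=
              pow_le_one₀ (norm_nonneg _) ((hA s hs).trans (by norm_num))
            calc _ ≤ (1 : ℝ) * 1 := by gcongr
              _ = 1 := by norm_num
          · exact (((hrc.pow _).mul (hAc.pow _)).mul (continuous_osc _)).aestronglyMeasurable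
        simp only [hYc, FT]
        simp_rw [← integral_const_mul]
        rw [← integral_finsetSum _ hint]
        congr 1
        funext s
        rw [X_pt hρs hA, mul_pow, add_comm (A (pt s y)) (EE T s), add_pow, ex_pt]
        simp only [Finset.mul_sum, Finset.sum_mul]
        apply Finset.sum_congr rfl
        intro m _
        have e1 : EE T s ^ m * EE T s = (1 / 2) ^ (m + 1) * osc s (((m : ℝ) + 1) * T) := by
          rw [← pow_succ]
          unfold EE
          rw [mul_pow, osc_pow]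
          push_cast
          ring
        rw [osc_add]
        calc ρ s * (EE T s * r (pt s y) * (r (pt s y) ^ n * (EE T s ^ m * A (pt s y) ^ (n - m)
                * (n.choose m : ℂ))) * ((Real.exp (y * τ) : ℂ) * osc s τ))
            = (EE T s ^ m * EE T s) * (ρ s * r (pt s y) ^ (n + 1) * A (pt s y) ^ (n - m)
                * (n.choose m : ℂ) * (Real.exp (y * τ) : ℂ) * osc s τ) := by ring
          _ = _ := by rw [e1]; ring
      rw [hmain]
      refine (norm_sum_le _ _).trans ?_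
      calc ∑ m ∈ Finset.range (n + 1),
            ‖((n.choose m : ℂ) * (1 / 2) ^ (m + 1) * (Real.exp (y * τ) : ℂ)) * Yc m‖
          ≤ ∑ m ∈ Finset.range (n + 1),
            (n.choose m : ℝ) * (Real.exp (y * max τ 0) * (ε * (1 / 2) ^ (n + 1) / 2 ^ n)) := by
            apply Finset.sum_le_sum
            intro m hm
            rw [norm_mul, norm_mul, norm_mul, Complex.norm_real,
              Real.norm_of_nonneg (Real.exp_pos _).le, Complex.norm_natCast, norm_pow]
            have h1 : ‖(1 / 2 : ℂ)‖ ^ (m + 1) ≤ 1 :=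
              pow_le_one₀ (norm_nonneg _) (by norm_num)
            have h2 := hYb m hm
            calc (n.choose m : ℝ) * ‖(1 / 2 : ℂ)‖ ^ (m + 1) * Real.exp (y * τ) * ‖Yc m‖
                ≤ (n.choose m : ℝ) * 1 * Real.exp (y * max τ 0)
                  * (ε * (1 / 2) ^ (n + 1) / 2 ^ n) := by gcongr
              _ = _ := by ring
        _ = (2 : ℝ) ^ n * (Real.exp (y * max τ 0) * (ε * (1 / 2) ^ (n + 1) / 2 ^ n)) := by
            rw [← Finset.sum_mul]
            congr 1
            have := Nat.sum_range_choose n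
            exact_mod_cast this
        _ = ε * (1 / 2) ^ (n + 1) * Real.exp (y * max τ 0) := by field_simp

end

end RC
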