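import Pool.Agent.Q85.RC.State

/-! The induction step. -/

set_option autoImplicit false

open MeasureTheory Set Filter Topology

noncomputable section

namespace RC

/-- the domain in which functionals are pushed -/
def DD (j : ℕ) (σ : ℝ) : Set ℂ := {z | MMr (j + 1) - 1 < z.re ∧ 0 < z.im ∧ z.im < σ}

theorem DD_open (j : ℕ) (σ : ℝ) : IsOpen (DD j σ) := by
  unfold DD
  exact (isOpen_lt continuous_const Complex.continuous_re).inter
    ((isOpen_lt continuous_const Complex.continuous_im).inter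
      (isOpen_lt Complex.continuous_im continuous_const))

theorem DD_conv (j : ℕ) (σ : ℝ) : Convex ℝ (DD j σ) := by
  intro z hz w hw a b ha hb hab
  obtain ⟨h1, h2, h3⟩ := hz
  obtain ⟨h4, h5, h6⟩ := hw
  refine ⟨?_, ?_, ?_⟩
  · simp only [Complex.add_re, Complex.real_smul, Complex.mul_re, Complex.ofReal_re,
      Complex.ofReal_im, zero_mul, sub_zero]
    rcases eq_or_lt_of_le ha with h | h
    · subst h; have : b = 1 := by linarith
      subst this; linarith
    · have e : a * (MMr (j + 1) - 1) + b * (MMr (j + 1) - 1) = MMr (j + 1) - 1 := by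
        rw [← add_mul, hab, one_mul]
      linarith [mul_le_mul_of_nonneg_left h4.le hb, mul_lt_mul_of_pos_left h1 h]
  · simp only [Complex.add_im, Complex.real_smul, Complex.mul_im, Complex.ofReal_re,
      Complex.ofReal_im, zero_mul, add_zero]
    rcases eq_or_lt_of_le ha with h | h
    · subst h; have : b = 1 := by linarith
      subst this; linarith
    · nlinarith [mul_pos h h2, mul_nonneg hb h5.le]
  · simp only [Complex.add_im, Complex.real_smul, Complex.mul_im, Complex.ofReal_re,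
      Complex.ofReal_im, zero_mul, add_zero]
    rcases eq_or_lt_of_le ha with h | h
    · subst h; have : b = 1 := by linarith
      subst this; linarith
    · nlinarith [mul_le_mul_of_nonneg_left h6.le hb, mul_lt_mul_of_pos_left h3 h]

theorem nearest (t T : ℝ) (ht : 0 ≤ t) (hT : 0 < T) : ∃ k : ℕ, |t - k * T| ≤ T / 2 := by
  refine ⟨⌊t / T + 1 / 2⌋₊, ?_⟩
  have h0 : 0 ≤ t / T + 1 / 2 := by positivity
  have h1 := Nat.floor_le h0
  have h2 := Nat.lt_floor_add_one (t / T + 1 / 2)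
  set k : ℝ := (⌊t / T + 1 / 2⌋₊ : ℝ)
  have e : t = t / T * T := by field_simp
  rw [abs_le]
  constructor
  · have : k * T ≤ (t / T + 1 / 2) * T := mul_le_mul_of_nonneg_right h1 hT.le
    nlinarith
  · have : (t / T + 1 / 2) * T ≤ (k + 1) * T := mul_le_mul_of_nonneg_right h2.le hT.le
    nlinarith

theorem Af_diff (j : ℕ) (H : ℂ → ℂ) (hd : DifferentiableOn ℂ H {z | z.im < 1}) :
    DifferentiableOn ℂ (Af j H) {z | z.im < 1} := by
  unfold Af
  exact (hd.mul (by fun_prop)).div_const _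

theorem line_cont (H : ℂ → ℂ) (hd : DifferentiableOn ℂ H {z | z.im < 1}) (y : ℝ) (hy : y < 1) :
    Continuous fun s => H (pt s y) := by
  have h1 := hd.continuousOn
  have h2 : ContinuousOn (fun s => H (pt s y)) univ :=
    h1.comp (continuous_pt y).continuousOn fun s _ => by
      show (pt s y).im < 1
      rw [pt_im]; exact hy
  exact continuousOn_univ.mp h2

/-- the pushed density -/
theorem pushed (j : ℕ) (S : St) (hS : Valid j S) (δ : ℝ) (hδ : 0 < δ) :
    ∃ ρ : ℝ → ℂ, Integrable ρ ∧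
      (∀ s, s ∉ Icc (MMr (j + 1 + 1)) (MMr (j + 1 + 1) + 1) → ρ s = 0) ∧
      ∀ k : ℕ, ∀ τ : ℝ,
        ‖(∫ s, ρ s * (Af j S.H (pt s (yy (j + 1)))) ^ k * ex (pt s (yy (j + 1))) τ)
          - ∫ s, S.μ s * (Af j S.H (pt s (yy j))) ^ k * ex (pt s (yy j)) τ‖
          ≤ δ * (1 / 2) ^ k * Real.exp (S.σ * max τ 0) := by
  set A := Af j S.H with hA
  set σ := S.σ with hσ
  have hσ1 := hS.hσ1
  have hσ2 := hS.hσ2
  have hy := yy_pos j
  have hσ0 : 0 < σ := by linarith
  have hAD : DifferentiableOn ℂ A (DD j σ) := by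
    refine (Af_diff j S.H hS.Hd).mono ?_
    intro z hz
    have := hz.2.2
    show z.im < 1
    linarith
  have hAn : ∀ z ∈ DD j σ, ‖A z‖ ≤ 1 / 64 := by
    intro z hz
    obtain ⟨h1, h2, h3⟩ := hz
    have hM : 1024 ≤ MMr (j + 1) := by rw [MMr_succ]; nlinarith [MMr_one_le j]
    exact Af_norm_le j S.H z h2.le (by linarith) h1.le
      (hS.Hb z h2.le h3.le (by linarith))
  let φ : ℕ × ℝ → ℂ → ℂ := fun p z =>
    (2 * A z) ^ p.1 * ex z p.2 * ((Real.exp (-(σ * max p.2 0)) : ℝ) : ℂ)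
  have hφ : ∀ i, DifferentiableOn ℂ (φ i) (DD j σ) := by
    intro p
    exact (((hAD.const_mul 2).pow p.1).mul (differentiable_ex p.2).differentiableOn).mul_const _
  have hb : ∀ i, ∀ z ∈ DD j σ, ‖φ i z‖ ≤ 1 := by
    intro p z hz
    have h1 := hAn z hz
    obtain ⟨_, h2, h3⟩ := hz
    simp only [φ]
    rw [norm_mul, norm_mul, norm_pow, norm_mul, Complex.norm_ofNat, norm_ex, Complex.norm_real,
      Real.norm_of_nonneg (Real.exp_pos _).le]
    have h4 : (2 * ‖A z‖) ^ p.1 ≤ 1 := pow_le_one₀ (by positivity) (by linarith)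
    have h5 : Real.exp (p.2 * z.im) * Real.exp (-(σ * max p.2 0)) ≤ 1 := by
      rw [← Real.exp_add]
      apply Real.exp_le_one_iff.mpr
      rcases le_total p.2 0 with h | h
      · rw [max_eq_right h]; nlinarith
      · rw [max_eq_left h]; nlinarith
    calc (2 * ‖A z‖) ^ p.1 * Real.exp (p.2 * z.im) * Real.exp (-(σ * max p.2 0))
        = (2 * ‖A z‖) ^ p.1 * (Real.exp (p.2 * z.im) * Real.exp (-(σ * max p.2 0))) := by ring
      _ ≤ 1 * 1 := by gcongr
      _ = 1 := by norm_num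
  have hy1 := yy_succ j
  have hMM := MMr_succ (j + 1)
  have hMp := MMr_pos (j + 1)
  obtain ⟨ρ, h1, h2, h3⟩ := push (DD j σ) (DD_open j σ) (DD_conv j σ).isPreconnected φ hφ hb
    S.μ (MMr (j + 1)) (yy j) hS.μi hS.μs
    (by
      intro s hs
      refine ⟨?_, ?_, ?_⟩
      · rw [pt_re]; linarith [hs.1]
      · rw [pt_im]; exact hy
      · rw [pt_im]; exact hσ1)
    (MMr (j + 1 + 1)) (yy (j + 1))
    (by
      intro s hs
      refine ⟨?_, ?_, ?_⟩
      · rw [pt_re]; linarith [hs.1]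
      · rw [pt_im]; exact yy_pos _
      · rw [pt_im]; linarith)
    δ hδ
  refine ⟨ρ, h1, h2, fun k τ => ?_⟩
  have h4 := h3 (k, τ)
  have e1 : ∀ (η : ℝ → ℂ) (y : ℝ), (∫ s, η s * φ (k, τ) (pt s y))
      = (2 ^ k * ((Real.exp (-(σ * max τ 0)) : ℝ) : ℂ)) * ∫ s, η s * A (pt s y) ^ k * ex (pt s y) τ := by
    intro η y
    rw [← integral_const_mul]
    congr 1
    funext s
    simp only [φ]
    rw [mul_pow]; ring
  rw [e1, e1, ← mul_sub, norm_mul, norm_mul, norm_pow, Complex.norm_ofNat, Complex.norm_real,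
    Real.norm_of_nonneg (Real.exp_pos _).le] at h4
  have h5 : Real.exp (-(σ * max τ 0)) * Real.exp (σ * max τ 0) = 1 := by
    rw [← Real.exp_add]; simp
  have h6 : (2 : ℝ) ^ k * (1 / 2) ^ k = 1 := by rw [← mul_pow]; norm_num
  set X := ‖(∫ s, ρ s * A (pt s (yy (j + 1))) ^ k * ex (pt s (yy (j + 1))) τ)
      - ∫ s, S.μ s * A (pt s (yy j)) ^ k * ex (pt s (yy j)) τ‖
  calc X = (2 ^ k * Real.exp (-(σ * max τ 0)) * X) * ((1 / 2) ^ k * Real.exp (σ * max τ 0)) := by
        calc X = X * ((2 : ℝ) ^ k * (1 / 2) ^ k)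
              * (Real.exp (-(σ * max τ 0)) * Real.exp (σ * max τ 0)) := by rw [h5, h6]; ring
          _ = _ := by ring
    _ ≤ δ * ((1 / 2) ^ k * Real.exp (σ * max τ 0)) := by gcongr
    _ = δ * (1 / 2) ^ k * Real.exp (σ * max τ 0) := by ring

end RC
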