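import Pool.Agent.Q85.RC.Step3

/-! The induction step, conclusion. -/

set_option autoImplicit false

open MeasureTheory Set Filter Topology

noncomputable section

namespace RC

theorem step (j : ℕ) (S : St) (hS : Valid j S) : ∃ S' : St, Valid (j + 1) S' ∧ Rel j S S' := by
  set y := yy j with hy
  set y' := yy (j + 1) with hy'
  set σ := S.σ with hσ
  set A := Af j S.H with hAdef
  set δ : ℝ := (1 / 2) ^ (j + 4) with hδ
  have hδ0 : 0 < δ := by positivity
  have hy0 : 0 < y := yy_pos j
  have hy'0 : 0 < y' := yy_pos (j + 1)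
  have hyy' : y' = y / 4 := yy_succ j
  have hyle : y ≤ 1 / 4 := yy_le j
  have hσ1 : y < σ := hS.hσ1
  have hσ2 : σ ≤ 1 / 2 := hS.hσ2
  have hσ0 : 0 < σ := by linarith
  have hq := hS.hq
  obtain ⟨ρ, hρ, hρs, hpu⟩ := pushed j S hS δ hδ0
  rw [← hAdef, ← hy, ← hy', ← hσ] at hpu
  have hAd : DifferentiableOn ℂ A {z | z.im < 1} := Af_diff j S.H hS.Hd
  have hAc : Continuous fun s => A (pt s y') := line_cont A hAd y' (by linarith)
  have hM1 : MMr (j + 1 + 1) = 1024 * MMr (j + 1) := MMr_succ (j + 1)
  have hM0 : 1 ≤ MMr (j + 1) := MMr_one_le _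
  have hA : ∀ s ∈ Icc (MMr (j + 1 + 1)) (MMr (j + 1 + 1) + 1), ‖A (pt s y')‖ ≤ 1 / 64 := by
    intro s hs
    apply Af_norm_le
    · rw [pt_im]; exact hy'0.le
    · rw [pt_im]; linarith
    · rw [pt_re]; linarith [hs.1]
    · apply hS.Hb
      · rw [pt_im]; exact hy'0.le
      · rw [pt_im]; linarith
      · rw [pt_re]; linarith [hs.1]
  set r := Af (j + 1) (kap (j + 1)) with hr
  have hrc : Continuous fun s => r (pt s y') :=
    line_cont r (Af_diff (j + 1) _ (kap_diff _)) y' (by linarith)
  have hrb : ∀ s ∈ Icc (MMr (j + 1 + 1)) (MMr (j + 1 + 1) + 1), ‖r (pt s y')‖ ≤ 1 / 64 := by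
    intro s hs
    apply Af_norm_le
    · rw [pt_im]; exact hy'0.le
    · rw [pt_im]; linarith
    · rw [pt_re]; linarith [hs.1]
    · have hpos : 0 < (pt s y').re := by rw [pt_re]; linarith [hs.1]
      refine (kap_norm_le (j + 1) _ hpos).trans ?_
      have := mr_pos (j + 1)
      gcongr
      linarith
  set C : ℝ := ∫ s, ‖ρ s‖ with hC
  have hC0 : 0 ≤ C := integral_nonneg fun s => norm_nonneg _
  have E1 := near hρ hρs hAc hA δ hδ0
  have E2 := powers hρ hρs hAc hA hy'0 r hrc hrb (1 / 4) (by norm_num)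
  have E3 := err hρs hA (kap (j + 1)) ((1 / 2) ^ (j + 1)) (by positivity)
  have E4 : ∀ᶠ T : ℝ in atTop, C ≤ 2 * δ * Real.exp (y' * T / 2) := by
    have h1 : Tendsto (fun T : ℝ => y' * T / 2) atTop atTop :=
      (tendsto_id.const_mul_atTop hy'0).atTop_div_const (by norm_num)
    have h2 := (Real.tendsto_exp_atTop.comp h1).const_mul_atTop (by positivity : 0 < 2 * δ)
    exact h2.eventually_ge_atTop C
  have E5 : ∀ᶠ T : ℝ in atTop, Real.log 2 ≤ y' * T :=
    (tendsto_id.const_mul_atTop hy'0).eventually_ge_atTop _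
  have hqL : Tendsto S.q atTop atTop := by
    refine tendsto_atTop_mono (fun t => hq.low t) ?_
    exact tendsto_id.const_mul_atTop hσ0
  have hTL : Tendsto (fun L => (S.q L - Real.log 2) / y') atTop atTop :=
    (tendsto_atTop_add_const_right _ _ hqL).atTop_div_const hy'0
  have F1 : ∀ᶠ L : ℝ in atTop, (j : ℝ) + 1 ≤ L := eventually_ge_atTop _
  have F2 : ∀ᶠ L : ℝ in atTop, 4 * Real.log 2 ≤ S.q L := hqL.eventually_ge_atTop _
  have F3 : ∀ᶠ L : ℝ in atTop, Real.exp (-S.q L) * mr (j + 1) ≤ (1 / 4) ^ (j + 1) := by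
    have h1 := (Real.tendsto_exp_atBot.comp (tendsto_neg_atTop_atBot.comp hqL)).mul_const
      (mr (j + 1))
    rw [zero_mul] at h1
    exact h1.eventually_le_const (by positivity)
  have F4 : ∀ᶠ L : ℝ in atTop, Real.log 2 / y' ≤ 2 * L :=
    (tendsto_id.const_mul_atTop (by norm_num : (0 : ℝ) < 2)).eventually_ge_atTop _
  obtain ⟨L, hT1, hT2, hT3, hT4, hT5, hL1, hL2, hL3, hL4⟩ :=
    ((hTL.eventually E1).and ((hTL.eventually E2).and ((hTL.eventually E3).and
      ((hTL.eventually E4).and ((hTL.eventually E5).and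
        (F1.and (F2.and (F3.and F4)))))))).exists
  set Q : ℝ := S.q L with hQ
  set T : ℝ := (Q - Real.log 2) / y' with hT
  have hlog : 0 < Real.log 2 := Real.log_pos (by norm_num)
  have hQT : Q = y' * T + Real.log 2 := by rw [hT]; field_simp; ring
  have hQ0 : 0 < Q := by linarith
  have hL0 : 0 < L := by
    have : (0 : ℝ) ≤ j := Nat.cast_nonneg j
    linarith
  have hyT : y * T = 4 * (y' * T) := by rw [hyy']; ring
  have h3Q : 3 * Q ≤ y * T := by rw [hyT]; linarith
  have hT0 : 0 < T := by
    have : 0 < y * T := by linarith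
    exact (mul_pos_iff_of_pos_left hy0).mp this
  have hσT : 3 * Q ≤ σ * T := h3Q.trans (mul_le_mul_of_nonneg_right hσ1.le hT0.le)
  have hT2L : 2 * L ≤ T := by
    have h1 : y * L ≤ Q := by
      have := hq.low L
      rw [← hσ] at this
      have h2 : y * L ≤ σ * L := mul_le_mul_of_nonneg_right hσ1.le hL0.le
      linarith
    have h2 : 4 * L - Real.log 2 / y' ≤ T := by
      rw [hT, sub_div]
      have : 4 * L ≤ Q / y' := by
        rw [le_div_iff₀ hy'0, hyy']; linarith
      linarith
    linarith
  have hexpQ : Real.exp Q = 2 * Real.exp (y' * T) := by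
    rw [hQT, Real.exp_add, Real.exp_log (by norm_num)]; ring
  have hexpQk : ∀ k : ℕ, Real.exp (k * Q) = 2 ^ k * Real.exp (y' * (k * T)) := by
    intro k
    rw [Real.exp_nat_mul, hexpQ, mul_pow, ← Real.exp_nat_mul]
    congr 2; ring
  have hEE : ∀ s : ℝ, Complex.exp (-(Q : ℂ)) * ex (pt s y') T = EE T s := by
    intro s
    rw [ex_pt]
    unfold EE
    have : Complex.exp (-(Q : ℂ)) * (Real.exp (y' * T) : ℂ) = 1 / 2 := by
      have h1 : Complex.exp (-(Q : ℂ)) = ((Real.exp (-Q) : ℝ) : ℂ) := by push_cast; rfl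
      rw [h1, ← Complex.ofReal_mul, ← Real.exp_add]
      have h2 : -Q + y' * T = -Real.log 2 := by rw [hQT]; ring
      rw [h2, Real.exp_neg, Real.exp_log (by norm_num)]
      norm_num
    linear_combination (osc s T) * this
  set H' : ℂ → ℂ := fun z => S.H z + Complex.exp (-(Q : ℂ)) * ex z T * kap (j + 1) z with hH'
  have hH'line : ∀ s, H' (pt s y') = kap (j + 1) (pt s y') * (A (pt s y') + EE T s) := by
    intro s
    simp only [hH']
    rw [hEE, Af_add j S.H _ _ (by rw [pt_im]; linarith)]
  have hAline : ∀ s, Af (j + 1) H' (pt s y') = r (pt s y') * (A (pt s y') + EE T s) := by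
    intro s
    exact Af_mul (j + 1) _ _ H' (hH'line s)
  have hqn := qn_ok hq hQ0.le hT0 (by linarith : Q ≤ S.σ * T)
  have hσ'y : y' < Q / T := by
    rw [lt_div_iff₀ hT0, hQT]; linarith
  have hσ'σ : Q / T ≤ σ := by
    rw [div_le_iff₀ hT0]; linarith
  have hqnlow : ∀ t, 0 ≤ t → y' * t ≤ qn S.q Q T t := by
    intro t ht
    exact (mul_le_mul_of_nonneg_right hσ'y.le ht).trans (hqn.low t)
  have hj0 : 0 < (1 / 2 : ℝ) ^ j := by positivity
  have hj1 : (1 / 2 : ℝ) ^ j ≤ 1 := pow_le_one₀ (by norm_num) (by norm_num)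
  have hδj : δ = (1 / 2) ^ j / 16 := by rw [hδ, pow_add]; ring
  refine ⟨⟨Q, T, Q / T, qn S.q Q T, H', mun ρ A y' T⟩, ?_, ?_⟩
  · refine ⟨hqn, hσ'y, hσ'σ.trans hσ2, ?_, ?_, mun_integrable hρ hρs hAc hA T,
      fun s hs => mun_supp hρs T s hs, ?_, ?_⟩
    · -- differentiability
      simp only [hH']
      exact hS.Hd.add (((differentiable_ex T).differentiableOn.const_mul _).mul (kap_diff _))
    · -- bound of the symbol
      intro z hz0 hz1 hz2
      have hz1' : z.im ≤ Q / T := hz1
      have h1 := hS.Hb z hz0 (hz1'.trans hσ'σ) hz2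
      have h2 := kap_norm_le (j + 1) z hz2
      have h3 : ‖Complex.exp (-(Q : ℂ)) * ex z T‖ ≤ 1 := by
        rw [norm_mul, norm_ex, Complex.norm_exp, ← Real.exp_add]
        apply Real.exp_le_one_iff.mpr
        simp only [Complex.neg_re, Complex.ofReal_re]
        have : z.im * T ≤ Q := by
          rw [le_div_iff₀ hT0] at hz1'; exact hz1'
        linarith
      have hm := mr_succ j
      have hmp := mr_pos j
      calc ‖S.H z + Complex.exp (-(Q : ℂ)) * ex z T * kap (j + 1) z‖
          ≤ ‖S.H z‖ + ‖Complex.exp (-(Q : ℂ)) * ex z T‖ * ‖kap (j + 1) z‖ := by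
            refine (norm_add_le _ _).trans ?_
            rw [norm_mul (Complex.exp (-(Q : ℂ)) * ex z T)]
        _ ≤ 2 * mr j / z.re + 1 * (mr (j + 1) / z.re) := by gcongr
        _ = (2 * mr j + mr (j + 1)) / z.re := by ring
        _ ≤ 2 * mr (j + 1) / z.re := by
            gcongr
            linarith
    · -- growth of the new function
      intro t ht
      obtain ⟨k, hk⟩ := nearest t T ht hT0
      have hn := hT1 t k hk
      set τ := t - k * T with hτ
      have htk : t = k * T + τ := by rw [hτ]; ring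
      have hτ1 : -(T / 2) ≤ τ := (abs_le.mp hk).1
      have hτ2 : τ ≤ T / 2 := (abs_le.mp hk).2
      set Z := Zk ρ A y' k τ with hZ
      set mn := min (S.q τ) Q with hmn
      have hlow := qn_lower hq hQ0.le hT0 hσ0.le hσT k τ hτ1
      rw [← htk, ← hmn] at hlow
      have hcoef : (1 : ℝ) ≤ 2 - (1 / 2) ^ j := by linarith
      -- the size of the block
      have hblock : Real.exp (y' * τ) * ‖Z‖ ≤ (2 - (1 / 2) ^ j + δ) * Real.exp mn := by
        rcases le_total τ L with hτL | hτL
        · have hqτ : S.q τ ≤ Q := hq.mono hτL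
          have hmn' : mn = S.q τ := min_eq_left hqτ
          have hpp := hpu k τ
          have e1 : (∫ s, ρ s * A (pt s y') ^ k * ex (pt s y') τ)
              = (Real.exp (y' * τ) : ℂ) * Z := by
            rw [hZ]; unfold Zk FT
            rw [← integral_const_mul]
            congr 1
            funext s
            rw [ex_pt]; ring
          rw [e1] at hpp
          have e2 : Real.exp (y' * τ) * ‖Z‖ = ‖(Real.exp (y' * τ) : ℂ) * Z‖ := by
            rw [norm_mul, Complex.norm_real, Real.norm_of_nonneg (Real.exp_pos _).le]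
          have hστ : σ * max τ 0 ≤ S.q τ := by
            rcases le_total τ 0 with h | h
            · rw [max_eq_right h, mul_zero]; exact hq.nonneg τ
            · rw [max_eq_left h]; exact hq.low τ
          have hyτ : y * max τ 0 ≤ S.q τ :=
            (mul_le_mul_of_nonneg_right hσ1.le (le_max_right _ _)).trans hστ
          have h2k : (1 / 2 : ℝ) ^ k ≤ 1 := pow_le_one₀ (by norm_num) (by norm_num)
          have h2k0 : (0 : ℝ) ≤ (1 / 2) ^ k := by positivity
          have hexpσ : Real.exp (σ * max τ 0) ≤ Real.exp (S.q τ) := Real.exp_le_exp.mpr hστ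
          have hexpy : Real.exp (y * max τ 0) ≤ Real.exp (S.q τ) := Real.exp_le_exp.mpr hyτ
          have hE0 := Real.exp_pos (S.q τ)
          have hd : δ * (1 / 2) ^ k * Real.exp (σ * max τ 0) ≤ δ * Real.exp (S.q τ) := by
            calc _ ≤ δ * 1 * Real.exp (S.q τ) := by gcongr
              _ = _ := by ring
          have hold : ‖∫ s, S.μ s * A (pt s y) ^ k * ex (pt s y) τ‖
              ≤ (2 - (1 / 2) ^ j) * Real.exp (S.q τ) := by
            rcases Nat.eq_zero_or_pos k with hk0 | hk0
            · subst hk0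
              have ht' : 0 ≤ τ := by
                rw [hτ]; simpa using ht
              have := hS.G τ ht'
              rw [← hy] at this
              unfold gf at this
              simpa using this
            · obtain ⟨n, rfl⟩ : ∃ n, k = n + 1 := ⟨k - 1, by omega⟩
              have := hS.P n τ
              rw [← hy, ← hAdef] at this
              refine this.trans ?_
              calc 1 / 4 * (1 / 2) ^ (n + 1) * Real.exp (y * max τ 0)
                  ≤ 1 / 4 * 1 * Real.exp (S.q τ) := by gcongr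
                _ ≤ (2 - (1 / 2) ^ j) * Real.exp (S.q τ) := by
                    apply mul_le_mul_of_nonneg_right _ hE0.le
                    linarith
          rw [e2, hmn']
          calc ‖(Real.exp (y' * τ) : ℂ) * Z‖
              ≤ ‖(Real.exp (y' * τ) : ℂ) * Z - ∫ s, S.μ s * A (pt s y) ^ k * ex (pt s y) τ‖
                + ‖∫ s, S.μ s * A (pt s y) ^ k * ex (pt s y) τ‖ := by
                have := norm_add_le ((Real.exp (y' * τ) : ℂ) * Z
                  - ∫ s, S.μ s * A (pt s y) ^ k * ex (pt s y) τ)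
                  (∫ s, S.μ s * A (pt s y) ^ k * ex (pt s y) τ)
                rwa [sub_add_cancel] at this
            _ ≤ δ * Real.exp (S.q τ) + (2 - (1 / 2) ^ j) * Real.exp (S.q τ) :=
                add_le_add (hpp.trans hd) hold
            _ = _ := by ring
        · have hqτ : Q ≤ S.q τ := hq.mono hτL
          have hmn' : mn = Q := min_eq_right hqτ
          have hZn : ‖Z‖ ≤ C := by
            refine (Zk_norm_le hρ hρs hA k τ).trans ?_
            rw [← hC]
            calc (1 / 64 : ℝ) ^ k * C ≤ 1 * C := by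
                  gcongr
                  exact pow_le_one₀ (by norm_num) (by norm_num)
              _ = C := one_mul C
          rw [hmn', hexpQ]
          have h1 : Real.exp (y' * τ) ≤ Real.exp (y' * T / 2) := by
            apply Real.exp_le_exp.mpr
            have := mul_le_mul_of_nonneg_left hτ2 hy'0.le
            linarith
          have h2 : Real.exp (y' * T / 2) * Real.exp (y' * T / 2) = Real.exp (y' * T) := by
            rw [← Real.exp_add]; congr 1; ring
          calc Real.exp (y' * τ) * ‖Z‖ ≤ Real.exp (y' * T / 2) * (2 * δ * Real.exp (y' * T / 2)) := by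
                gcongr
                exact hZn.trans hT4
            _ = δ * (2 * Real.exp (y' * T)) := by rw [← h2]; ring
            _ ≤ (2 - (1 / 2) ^ j + δ) * (2 * Real.exp (y' * T)) := by
                apply mul_le_mul_of_nonneg_right _ (by positivity)
                linarith
      have hterm : ‖(-2) ^ k * (Real.exp (y' * t) : ℂ) * Z‖
          ≤ (2 - (1 / 2) ^ j + δ) * Real.exp (qn S.q Q T t) := by
        rw [norm_mul, norm_mul, norm_pow, norm_neg, Complex.norm_ofNat, Complex.norm_real,
          Real.norm_of_nonneg (Real.exp_pos _).le]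
        have e1 : Real.exp (y' * t) = Real.exp (y' * (k * T)) * Real.exp (y' * τ) := by
          rw [← Real.exp_add]; congr 1; rw [htk]; ring
        calc 2 ^ k * Real.exp (y' * t) * ‖Z‖
            = Real.exp (k * Q) * (Real.exp (y' * τ) * ‖Z‖) := by rw [e1, hexpQk]; ring
          _ ≤ Real.exp (k * Q) * ((2 - (1 / 2) ^ j + δ) * Real.exp mn) := by gcongr
          _ = (2 - (1 / 2) ^ j + δ) * Real.exp (k * Q + mn) := by rw [Real.exp_add]; ring
          _ ≤ (2 - (1 / 2) ^ j + δ) * Real.exp (qn S.q Q T t) := by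
              apply mul_le_mul_of_nonneg_left (Real.exp_le_exp.mpr hlow)
              linarith
      have hdel : δ * Real.exp (y' * t) ≤ δ * Real.exp (qn S.q Q T t) := by
        gcongr
        exact hqnlow t ht
      have e3 : (1 / 2 : ℝ) ^ (j + 1) = (1 / 2) ^ j / 2 := by rw [pow_succ]; ring
      have hE0 := Real.exp_pos (qn S.q Q T t)
      show ‖gf (mun ρ A y' T) y' t‖ ≤ (2 - (1 / 2) ^ (j + 1)) * Real.exp (qn S.q Q T t)
      calc ‖gf (mun ρ A y' T) y' t‖
          ≤ ‖gf (mun ρ A y' T) y' t - (-2) ^ k * (Real.exp (y' * t) : ℂ) * Z‖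
            + ‖(-2) ^ k * (Real.exp (y' * t) : ℂ) * Z‖ := by
            have := norm_add_le (gf (mun ρ A y' T) y' t - (-2) ^ k * (Real.exp (y' * t) : ℂ) * Z)
              ((-2) ^ k * (Real.exp (y' * t) : ℂ) * Z)
            rwa [sub_add_cancel] at this
        _ ≤ δ * Real.exp (qn S.q Q T t) + (2 - (1 / 2) ^ j + δ) * Real.exp (qn S.q Q T t) :=
            add_le_add (hn.trans hdel) hterm
        _ = (2 - (1 / 2) ^ j + 2 * δ) * Real.exp (qn S.q Q T t) := by ring
        _ ≤ (2 - (1 / 2) ^ (j + 1)) * Real.exp (qn S.q Q T t) := by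
            apply mul_le_mul_of_nonneg_right _ hE0.le
            rw [e3, hδj]; linarith
    · -- powers
      intro n τ
      have h := hT2 n τ
      show ‖∫ s, mun ρ A y' T s * (Af (j + 1) H' (pt s y')) ^ (n + 1) * ex (pt s y') τ‖ ≤ _
      have e : (fun s => mun ρ A y' T s * (Af (j + 1) H' (pt s y')) ^ (n + 1) * ex (pt s y') τ)
          = fun s => mun ρ A y' T s * (r (pt s y') * (A (pt s y') + EE T s)) ^ (n + 1)
            * ex (pt s y') τ := by
        funext s; rw [hAline]
      rw [e]
      exact h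
  · refine ⟨rfl, rfl, hQ0, ?_, hL3, ?_, ?_, ?_⟩
    · show (j : ℝ) + 1 ≤ T
      linarith
    · show Q ≤ 2 * y' * T
      linarith
    · -- closeness
      intro t ht0 ht1
      show ‖gf (mun ρ A y' T) y' t - gf S.μ y t‖ ≤ (1 / 2) ^ (j + 3) * Real.exp (t / 2)
      have hk : |t - (0 : ℕ) * T| ≤ T / 2 := by
        rw [Nat.cast_zero, zero_mul, sub_zero, abs_of_nonneg ht0]; linarith
      have hn := hT1 t 0 hk
      have hpp := hpu 0 t
      simp only [pow_zero, mul_one, one_mul, Nat.cast_zero, zero_mul, sub_zero] at hn hpp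
      have e1 : (∫ s, ρ s * ex (pt s y') t) = (Real.exp (y' * t) : ℂ) * Zk ρ A y' 0 t := by
        unfold Zk FT
        rw [← integral_const_mul]
        congr 1
        funext s
        rw [ex_pt]; ring
      rw [e1] at hpp
      have h1 : Real.exp (y' * t) ≤ Real.exp (t / 2) := by
        apply Real.exp_le_exp.mpr
        nlinarith
      have h2 : Real.exp (σ * max t 0) ≤ Real.exp (t / 2) := by
        apply Real.exp_le_exp.mpr
        rw [max_eq_left ht0]; nlinarith
      have e2 : (1 / 2 : ℝ) ^ (j + 3) = 2 * δ := by rw [hδ]; ring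
      have e3 : (∫ s, S.μ s * ex (pt s y) t) = gf S.μ y t := rfl
      rw [e3] at hpp
      calc ‖gf (mun ρ A y' T) y' t - gf S.μ y t‖
          ≤ ‖gf (mun ρ A y' T) y' t - (Real.exp (y' * t) : ℂ) * Zk ρ A y' 0 t‖
            + ‖(Real.exp (y' * t) : ℂ) * Zk ρ A y' 0 t - gf S.μ y t‖ := by
            have := norm_add_le (gf (mun ρ A y' T) y' t - (Real.exp (y' * t) : ℂ) * Zk ρ A y' 0 t)
              ((Real.exp (y' * t) : ℂ) * Zk ρ A y' 0 t - gf S.μ y t)
            rwa [sub_add_sub_cancel] at this
        _ ≤ δ * Real.exp (t / 2) + δ * Real.exp (t / 2) := by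
            refine add_le_add (hn.trans ?_) (hpp.trans ?_) <;> gcongr
        _ = (1 / 2) ^ (j + 3) * Real.exp (t / 2) := by rw [e2]; ring
    · -- the equation
      intro τ hτ
      show ‖∫ s, mun ρ A y' T s * H' (pt s y') * ex (pt s y') τ‖ ≤ _
      have e : (fun s => mun ρ A y' T s * H' (pt s y') * ex (pt s y') τ)
          = fun s => mun ρ A y' T s * (kap (j + 1) (pt s y') * (A (pt s y') + EE T s))
            * ex (pt s y') τ := by
        funext s; rw [hH'line]
      rw [e]
      refine (hT3 τ hτ).trans ?_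
      have : Real.exp (y' * τ) ≤ Real.exp τ := by
        apply Real.exp_le_exp.mpr
        nlinarith
      gcongr

end RC
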