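import Pool.Agent.Q85.RC.Limit

/-! The correlation of the limit functions vanishes. -/

set_option autoImplicit false

open MeasureTheory Set Filter Topology

noncomputable section

namespace RC

/-- the function `f` -/
def ff (S : ℕ → St) (t : ℝ) : ℝ := ∑' j, fj S j t

/-- the transform of a piece -/
def hj (S : ℕ → St) (j : ℕ) (z : ℂ) : ℂ :=
  Complex.exp (-((S j).Q : ℂ)) * ex z (S j).T * kap j z

section
variable {S : ℕ → St} (h0 : S 0 = S0) (hV : ∀ j, Valid j (S j))
  (hR : ∀ j, Rel j (S j) (S (j + 1)))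

include h0 hR in
theorem H_sum (J : ℕ) (z : ℂ) : (S J).H z = ∑ j ∈ Finset.range (J + 1), hj S j z := by
  induction J with
  | zero =>
    rw [Finset.sum_range_one]
    unfold hj
    rw [h0]
    simp [S0, ex]
  | succ J ih =>
    rw [Finset.sum_range_succ, ← ih, (hR J).H_eq]
    rfl

theorem hj_eq (S : ℕ → St) (j : ℕ) (z : ℂ) :
    ((mr j * Real.exp (-(S j).Q) : ℝ) : ℂ) * ex z (S j).T / ((MMr j : ℂ) + Complex.I * z)
      = hj S j z := by
  unfold hj kap
  push_cast
  ring

include h0 hR in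
theorem fj_hat (j : ℕ) (z : ℂ) (hz : z.im < 1) :
    ∫ t in Ioi (0 : ℝ), (fj S j t : ℂ) * ex z t = hj S j z := by
  rw [← hj_eq]
  exact eb_hat _ (T_nonneg h0 hR j) z (by linarith [MMr_one_le j])

include h0 hV hR in
theorem corr (j J : ℕ) (τ : ℝ) :
    ∫ t in Ioi (0 : ℝ), (fj S j t : ℂ) * gg S J (t + τ)
      = ∫ s, (S J).μ s * hj S j (pt s (yy J)) * ex (pt s (yy J)) τ := by
  have h := eb_corr (mr j * Real.exp (-(S j).Q)) (b := MMr j) (T_nonneg h0 hR j) (S J).μ
    (hV J).μi (yy J) (by linarith [MMr_one_le j, yy_le J]) τ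
  unfold fj gg
  rw [h]
  congr 1
  funext s
  rw [hj_eq]

include hV in
theorem corr_integrable (j J : ℕ) (τ : ℝ) :
    Integrable fun s => (S J).μ s * hj S j (pt s (yy J)) * ex (pt s (yy J)) τ := by
  have e : (fun s => (S J).μ s * hj S j (pt s (yy J)) * ex (pt s (yy J)) τ)
      = fun s => (S J).μ s * (hj S j (pt s (yy J)) * ex (pt s (yy J)) τ) := by funext s; ring
  rw [e]
  have hy : yy J < 1 := by linarith [yy_le J]
  apply int_mul (hV J).μi (hV J).μs _ ?_
    (Real.exp (-(S j).Q) * Real.exp ((S j).T * yy J) * mr j * Real.exp (τ * yy J))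
  · intro s hs
    have h1 : 1 ≤ s := (MMr_one_le (J + 1)).trans hs.1
    unfold hj
    rw [norm_mul, norm_mul, norm_mul, norm_ex, norm_ex, pt_im, Complex.norm_exp]
    have h2 := kap_norm_le j (pt s (yy J)) (by rw [pt_re]; linarith)
    rw [pt_re] at h2
    have h3 : mr j / s ≤ mr j := div_le_self (mr_pos j).le h1
    have h4 := h2.trans h3
    simp only [Complex.neg_re, Complex.ofReal_re]
    gcongr
  · have c1 : Continuous fun s => kap j (pt s (yy J)) := line_cont _ (kap_diff j) _ hy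
    have c2 : Continuous fun s => ex (pt s (yy J)) (S j).T :=
      (continuous_ex _).comp (continuous_pt _)
    have c3 : Continuous fun s => ex (pt s (yy J)) τ :=
      (continuous_ex _).comp (continuous_pt _)
    unfold hj
    exact (((continuous_const.mul c2).mul c1).mul c3).aestronglyMeasurable

include h0 hV hR in
theorem corr_sum (J : ℕ) (τ : ℝ) (hτ : 0 ≤ τ) :
    ‖∑ j ∈ Finset.range (J + 1 + 1), ∫ t in Ioi (0 : ℝ), (fj S j t : ℂ) * gg S (J + 1) (t + τ)‖
      ≤ (1 / 2) ^ (J + 1) * Real.exp τ := by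
  have e : ∑ j ∈ Finset.range (J + 1 + 1),
        ∫ t in Ioi (0 : ℝ), (fj S j t : ℂ) * gg S (J + 1) (t + τ)
      = ∫ s, (S (J + 1)).μ s * (S (J + 1)).H (pt s (yy (J + 1))) * ex (pt s (yy (J + 1))) τ := by
    simp_rw [corr h0 hV hR _ (J + 1) τ]
    rw [← integral_finsetSum _ fun j _ => corr_integrable hV j (J + 1) τ]
    congr 1
    funext s
    rw [H_sum h0 hR, Finset.mul_sum, Finset.sum_mul]
  rw [e]
  exact (hR J).small τ hτ

theorem fj_meas (S : ℕ → St) (j : ℕ) : Measurable fun t => (fj S j t : ℂ) :=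
  Complex.measurable_ofReal.comp (eb_measurable _ _ _)

include h0 hV hR in
theorem dom_bound (j J : ℕ) (h : j ≤ J) (τ : ℝ) (hτ : 0 ≤ τ) (t : ℝ) (ht : 0 < t) :
    ‖(fj S j t : ℂ) * gg S J (t + τ)‖ ≤ 2 * Real.exp (τ / 2) * Bj S j t := by
  rw [norm_mul, Complex.norm_real, Real.norm_of_nonneg (fj_nonneg S j t)]
  have h1 := gg_bound hV J (t + τ) (by linarith)
  have h2 := weighted h0 hV hR j J h t τ hτ
  have h3 := fj_nonneg S j t
  calc fj S j t * ‖gg S J (t + τ)‖ ≤ fj S j t * (2 * Real.exp ((S J).q (t + τ))) := by gcongr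
    _ = 2 * (fj S j t * Real.exp ((S J).q (t + τ))) := by ring
    _ ≤ 2 * (Real.exp (τ / 2) * Bj S j t) := by gcongr
    _ = 2 * Real.exp (τ / 2) * Bj S j t := by ring

include h0 hV in
theorem dom_bound_lim (j : ℕ) (τ : ℝ) (hτ : 0 ≤ τ) (t : ℝ) (ht : 0 < t) :
    ‖(fj S j t : ℂ) * gI S hR (t + τ)‖ ≤ 2 * Real.exp (τ / 2) * Bj S j t := by
  rw [norm_mul, Complex.norm_real, Real.norm_of_nonneg (fj_nonneg S j t)]
  have h1 := gI_bound hV hR (t + τ) (by linarith)
  have h2 := weighted h0 hV hR j j le_rfl t τ hτ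
  have h3 := fj_nonneg S j t
  have h4 := qI_le hV (t + τ) j
  calc fj S j t * ‖gI S hR (t + τ)‖ ≤ fj S j t * (2 * Real.exp ((S j).q (t + τ))) := by
        apply mul_le_mul_of_nonneg_left _ h3
        refine h1.trans ?_
        gcongr
    _ = 2 * (fj S j t * Real.exp ((S j).q (t + τ))) := by ring
    _ ≤ 2 * (Real.exp (τ / 2) * Bj S j t) := by gcongr
    _ = 2 * Real.exp (τ / 2) * Bj S j t := by ring

include h0 hV hR in
theorem term_bound (j J : ℕ) (h : j ≤ J) (τ : ℝ) (hτ : 0 ≤ τ) :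
    ‖∫ t in Ioi (0 : ℝ), (fj S j t : ℂ) * gg S J (t + τ)‖
      ≤ 4 * Real.exp (τ / 2) * (1 / 2) ^ j := by
  have h1 : ‖∫ t in Ioi (0 : ℝ), (fj S j t : ℂ) * gg S J (t + τ)‖
      ≤ ∫ t in Ioi (0 : ℝ), 2 * Real.exp (τ / 2) * Bj S j t := by
    apply norm_integral_le_of_norm_le ((Bj_integrable h0 hR j).const_mul _)
    filter_upwards [ae_restrict_mem measurableSet_Ioi] with t ht
    exact dom_bound h0 hV hR j J h τ hτ t ht
  refine h1.trans ?_
  rw [integral_const_mul]
  have h2 := Bj_integral h0 hR j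
  calc 2 * Real.exp (τ / 2) * ∫ t in Ioi 0, Bj S j t
      ≤ 2 * Real.exp (τ / 2) * (2 * (1 / 2) ^ j) := by gcongr
    _ = 4 * Real.exp (τ / 2) * (1 / 2) ^ j := by ring

include h0 hV in
theorem term_lim (j : ℕ) (τ : ℝ) (hτ : 0 ≤ τ) :
    Tendsto (fun J => ∫ t in Ioi (0 : ℝ), (fj S j t : ℂ) * gg S J (t + τ)) atTop
      (𝓝 (∫ t in Ioi (0 : ℝ), (fj S j t : ℂ) * gI S hR (t + τ))) := by
  apply tendsto_integral_filter_of_dominated_convergence
    (fun t => 2 * Real.exp (τ / 2) * Bj S j t)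
  · exact Eventually.of_forall fun J => ((fj_meas S j).mul
      ((gf_continuous (S J).μ (hV J).μi (yy J)).measurable.comp
        (measurable_id.add_const τ))).aestronglyMeasurable
  · filter_upwards [eventually_ge_atTop j] with J hJ
    filter_upwards [ae_restrict_mem measurableSet_Ioi] with t ht
    exact dom_bound h0 hV hR j J hJ τ hτ t ht
  · exact (Bj_integrable h0 hR j).const_mul _
  · filter_upwards [ae_restrict_mem measurableSet_Ioi] with t ht
    have ht' : (0 : ℝ) < t := ht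
    exact (gI_tendsto hR (t + τ) (by linarith)).const_mul _

include h0 hV in
theorem sum_zero (τ : ℝ) (hτ : 0 ≤ τ) :
    ∑' j, ∫ t in Ioi (0 : ℝ), (fj S j t : ℂ) * gI S hR (t + τ) = 0 := by
  let α : ℕ → ℕ → ℂ := fun J j =>
    if j ≤ J then ∫ t in Ioi (0 : ℝ), (fj S j t : ℂ) * gg S J (t + τ) else 0
  have hsum : Summable fun j : ℕ => 4 * Real.exp (τ / 2) * (1 / 2 : ℝ) ^ j :=
    (summable_geometric_of_lt_one (by norm_num) (by norm_num)).mul_left _
  have hT : Tendsto (fun J => ∑' j, α J j) atTop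
      (𝓝 (∑' j, ∫ t in Ioi (0 : ℝ), (fj S j t : ℂ) * gI S hR (t + τ))) := by
    apply tendsto_tsum_of_dominated_convergence hsum
    · intro j
      refine (term_lim h0 hV hR j τ hτ).congr' ?_
      filter_upwards [eventually_ge_atTop j] with J hJ
      simp only [α, if_pos hJ]
    · refine Eventually.of_forall fun J j => ?_
      by_cases hj : j ≤ J
      · simp only [α, if_pos hj]
        exact term_bound h0 hV hR j J hj τ hτ
      · simp only [α, if_neg hj, norm_zero]
        positivity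
  have hfin : ∀ J, ∑' j, α J j
      = ∑ j ∈ Finset.range (J + 1), ∫ t in Ioi (0 : ℝ), (fj S j t : ℂ) * gg S J (t + τ) := by
    intro J
    rw [tsum_eq_sum (s := Finset.range (J + 1))]
    · apply Finset.sum_congr rfl
      intro j hj
      have : j ≤ J := by rw [Finset.mem_range] at hj; omega
      simp only [α, if_pos this]
    · intro j hj
      have : ¬ j ≤ J := by rw [Finset.mem_range] at hj; omega
      simp only [α, if_neg this]
  have hz : Tendsto (fun J => ∑' j, α (J + 1) j) atTop (𝓝 0) := by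
    have h1 : Tendsto (fun J : ℕ => (1 / 2 : ℝ) ^ (J + 1) * Real.exp τ) atTop (𝓝 0) := by
      have := ((tendsto_pow_atTop_nhds_zero_of_lt_one (by norm_num : (0 : ℝ) ≤ 1 / 2)
        (by norm_num)).comp (tendsto_add_atTop_nat 1)).mul_const (Real.exp τ)
      rwa [zero_mul] at this
    refine squeeze_zero_norm (fun J => ?_) h1
    rw [hfin]
    exact corr_sum h0 hV hR J τ hτ
  exact tendsto_nhds_unique (hT.comp (tendsto_add_atTop_nat 1)) hz

include h0 hR in
theorem fj_summable (t : ℝ) : Summable fun j => fj S j t :=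
  Summable.of_nonneg_of_le (fun j => fj_nonneg S j t) (fun j => fj_le h0 hR j t)
    (summable_geometric_of_lt_one (by norm_num) (by norm_num))

include h0 hV in
/-- **all right translates are orthogonal to the limit function** -/
theorem corr_zero (τ : ℝ) (hτ : 0 ≤ τ) :
    ∫ t in Ioi (0 : ℝ), (ff S t : ℂ) * gI S hR (t + τ) = 0 := by
  have hint : ∀ j, Integrable (fun t => (fj S j t : ℂ) * gI S hR (t + τ))
      (volume.restrict (Ioi 0)) := by
    intro j
    refine Integrable.mono' ((Bj_integrable h0 hR j).const_mul (2 * Real.exp (τ / 2))) ?_ ?_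
    · exact ((fj_meas S j).mul ((gI_measurable hV hR).comp
        (measurable_id.add_const τ))).aestronglyMeasurable
    · filter_upwards [ae_restrict_mem measurableSet_Ioi] with t ht
      exact dom_bound_lim h0 hV hR j τ hτ t ht
  have hsum : Summable fun j => ∫ t in Ioi (0 : ℝ), ‖(fj S j t : ℂ) * gI S hR (t + τ)‖ := by
    refine Summable.of_nonneg_of_le (fun j => integral_nonneg fun t => norm_nonneg _)
      (fun j => ?_) ((summable_geometric_of_lt_one (by norm_num : (0 : ℝ) ≤ 1 / 2)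
        (by norm_num)).mul_left (4 * Real.exp (τ / 2)))
    calc ∫ t in Ioi (0 : ℝ), ‖(fj S j t : ℂ) * gI S hR (t + τ)‖
        ≤ ∫ t in Ioi (0 : ℝ), 2 * Real.exp (τ / 2) * Bj S j t := by
          apply integral_mono_ae (hint j).norm ((Bj_integrable h0 hR j).const_mul _)
          filter_upwards [ae_restrict_mem measurableSet_Ioi] with t ht
          exact dom_bound_lim h0 hV hR j τ hτ t ht
      _ ≤ 4 * Real.exp (τ / 2) * (1 / 2) ^ j := by
          rw [integral_const_mul]
          have h2 := Bj_integral h0 hR j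
          calc 2 * Real.exp (τ / 2) * ∫ t in Ioi 0, Bj S j t
              ≤ 2 * Real.exp (τ / 2) * (2 * (1 / 2) ^ j) := by gcongr
            _ = 4 * Real.exp (τ / 2) * (1 / 2) ^ j := by ring
  have h := integral_tsum_of_summable_integral_norm hint hsum
  rw [sum_zero h0 hV hR τ hτ] at h
  rw [h]
  congr 1
  funext t
  rw [tsum_mul_right]
  unfold ff
  rw [Complex.ofReal_tsum]

end

end RC
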